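import Pool.Agent.H45.EG4.S
import Pool.Agent.H45.EG3.PNM

/-!
# EG4, rows BASG, INDG, EGRG
-/

set_option autoImplicit false

namespace Pool.EG4

open MvPolynomial Pool.EGH
open Pool.EG3 (Cp Mo up Sg cp rk wt Cm CLm Rz MC PNMStmt PEMStmt HGMStmt mc_inv SGEStmt MOMStmt
  INDStmt)
open Pool.EGC (lx sl cj Gs)

theorem dl_length (a : ℕ → ℕ) (r : ℕ) : (dl a r).length = r := by
  induction r with
  | zero => rfl
  | succ r ih => rw [dl, List.length_cons, ih]

theorem dl_sum (a : ℕ → ℕ) (r : ℕ) : ((dl a r).map (fun d => d - 1)).sum = so a r := by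
  induction r with
  | zero => rfl
  | succ r ih =>
    rw [dl, List.map_cons, List.sum_cons, ih]
    unfold so
    rw [Finset.sum_range_succ, add_comm]

theorem so_succ (a : ℕ → ℕ) (r : ℕ) : so a (r + 1) = so a r + (a r - 1) := by
  unfold so
  rw [Finset.sum_range_succ]

theorem mo_mem (hMOM : MOMStmt) {m : ℕ} {c : Fin m → ℕ∞} {d : ℕ} {x : Fin m → ℕ} :
    x ∈ Mo c d ↔ ∑ i, x i = d ∧ ∀ i, (x i : ℕ∞) < c i := (hMOM m c d x).1

/-- In low degrees the last cap does not matter. -/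
theorem mo_low (hMOM : MOMStmt) (a : ℕ → ℕ) (r d : ℕ) (hd : d < a r) :
    Mo (ca a (r + 1) (r + 1)) d = Mo (ca a r (r + 1)) d := by
  ext x
  rw [mo_mem hMOM, mo_mem hMOM]
  refine and_congr_right fun hs => ?_
  constructor
  · intro h i
    by_cases hi : (i : ℕ) < r
    · have := h i
      unfold ca at this ⊢
      rw [if_pos hi]
      rwa [if_pos (by omega)] at this
    · unfold ca
      rw [if_neg hi]
      exact ENat.natCast_lt_top _
  · intro h i
    unfold ca
    rw [if_pos i.isLt]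
    by_cases hi : (i : ℕ) < r
    · have := h i
      unfold ca at this
      rwa [if_pos hi] at this
    · have hir : (i : ℕ) = r := by have := i.isLt; omega
      rw [hir]
      have h1 : x i ≤ ∑ j, x j := Finset.single_le_sum (fun j _ => Nat.zero_le _)
        (Finset.mem_univ i)
      have h2 : x i < a r := by omega
      exact_mod_cast h2

theorem sg_low (hMOM : MOMStmt) (a : ℕ → ℕ) (r d : ℕ) (hd : d < a r)
    (A : Finset (Fin (r + 1) → ℕ)) :
    Sg (ca a (r + 1) (r + 1)) d A ↔ Sg (ca a r (r + 1)) d A := by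
  unfold Sg
  rw [mo_low hMOM a r d hd]

/-- Growth in low degrees. -/
theorem low (hMOM : MOMStmt) (hSGE : SGEStmt) {K : Type} [Field K] {N : ℕ} (a : ℕ → ℕ) (r : ℕ)
    (I : Ideal (PR K N)) (h : Rz I (ca a r (r + 1))) (d : ℕ) (hd : d + 1 < a r)
    (A B : Finset (Fin (r + 1) → ℕ)) (hA : Sg (ca a (r + 1) (r + 1)) d A)
    (hB : Sg (ca a (r + 1) (r + 1)) (d + 1) B)
    (hAc : hf I d + A.card = (Mo (ca a (r + 1) (r + 1)) d).card)
    (hBc : hf I (d + 1) + B.card = (Mo (ca a (r + 1) (r + 1)) (d + 1)).card) :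
    up (ca a (r + 1) (r + 1)) d A ⊆ B := by
  obtain ⟨A', h1, h2, h3⟩ := h
  rw [sg_low hMOM a r d (by omega)] at hA
  rw [sg_low hMOM a r (d + 1) hd] at hB
  rw [mo_low hMOM a r d (by omega)] at hAc
  rw [mo_low hMOM a r (d + 1) hd] at hBc
  have e1 : A ⊆ A' d := (hSGE _ _ _).2 _ _ hA (h1 d) (by have := h3 d; omega)
  have e2 : A' (d + 1) ⊆ B := (hSGE _ _ _).2 _ _ (h1 (d + 1)) hB (by have := h3 (d + 1); omega)
  intro y hy
  rw [(hMOM _ _ d y).2] at hy
  obtain ⟨hy1, x, hx, i, hxy⟩ := hy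
  rw [mo_low hMOM a r (d + 1) hd] at hy1
  apply e2
  apply h2 d
  rw [(hMOM _ _ d y).2]
  exact ⟨hy1, x, e1 hx, i, hxy⟩

/-- BASG. -/
theorem t_basg (hMOM : MOMStmt) (hSGE : SGEStmt) (hQHF : QHFGStmt) (hLNK : LNKGStmt)
    (hREV : REVGStmt) (hMON : MONStmt) : BASGStmt := by
  intro a r hmono ha2 hr hso hEG K _ _ N k J I hkN hJ hJI hI
  have hinf : Infinite K := IsAlgClosed.instInfinite
  have ha : ∀ i, 2 ≤ a i := fun i => ha2.trans (hmono (Nat.zero_le i))
  have hcc : ca a (r + 1) (r + 1) = fun i : Fin (r + 1) => ((a i : ℕ) : ℕ∞) := by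
    funext i
    unfold ca
    rw [if_pos i.isLt]
  have hsf : so a (r + 1) = ∑ i : Fin (r + 1), (a i - 1) := by
    unfold so
    rw [Finset.sum_range]
  obtain ⟨r1, r2, r3, r4⟩ := hREV (r + 1) (fun i => a i) (so a (r + 1))
    (fun i => by have := ha i; omega) hsf
  rw [← hcc] at r1 r2 r3 r4
  have hQ : ∀ d, hf J d = (Mo (ca a (r + 1) (r + 1)) d).card :=
    hQHF K N k (r + 1) a J hkN hJ
  have hJs : hf J (so a (r + 1)) = 1 := by
    rw [hQ]
    have := r1 0 (Nat.zero_le _)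
    rw [Nat.sub_zero] at this
    rw [this, r2]
  obtain ⟨I', hI', hJI', hd'⟩ := hLNK K N k (dl a (r + 1)) J I hJ (by rw [dl_length]; exact hkN)
    hJI hI (so a (r + 1)) (dl_sum a (r + 1)).symm hJs (fun d hd => by rw [hQ, hQ, r1 d hd])
  obtain ⟨J1, q, hJq, hJ1, -, -, -⟩ := mc_inv hJ
  have hJ1J : J1 ≤ J := by rw [hJq]; exact le_sup_left
  have hR : Rz I (ca a r (r + 1)) := hEG K N k (r + 1) J1 I hkN (Nat.le_succ r) hJ1
    (hJ1J.trans hJI) hI
  have hR' : Rz I' (ca a r (r + 1)) := hEG K N k (r + 1) J1 I' hkN (Nat.le_succ r) hJ1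
    (hJ1J.trans hJI') hI'
  have hle : ∀ d, hf I d ≤ (Mo (ca a (r + 1) (r + 1)) d).card := by
    intro d
    rw [← hQ d]
    exact (hMON K N J I d hJI).1
  have hle' : ∀ d, hf I' d ≤ (Mo (ca a (r + 1) (r + 1)) d).card := by
    intro d
    rw [← hQ d]
    exact (hMON K N J I' d hJI').1
  choose A hA1 hA2 using fun d => (hSGE (r + 1) (ca a (r + 1) (r + 1)) d).1
    ((Mo (ca a (r + 1) (r + 1)) d).card - hf I d) (Nat.sub_le _ _)
  choose A' hA1' hA2' using fun d => (hSGE (r + 1) (ca a (r + 1) (r + 1)) d).1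
    ((Mo (ca a (r + 1) (r + 1)) d).card - hf I' d) (Nat.sub_le _ _)
  have hA3 : ∀ d, hf I d + (A d).card = (Mo (ca a (r + 1) (r + 1)) d).card := by
    intro d
    rw [hA2]
    have := hle d
    omega
  have hA3' : ∀ d, hf I' d + (A' d).card = (Mo (ca a (r + 1) (r + 1)) d).card := by
    intro d
    rw [hA2']
    have := hle' d
    omega
  refine ⟨A, hA1, fun d => ?_, hA3⟩
  by_cases hd : d + 1 < a r
  · exact low hMOM hSGE a r I hR d hd _ _ (hA1 d) (hA1 (d + 1)) (hA3 d) (hA3 (d + 1))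
  by_cases hds : d < so a (r + 1)
  · have hss := so_succ a r
    have h1 := ha r
    refine r4 d hds (A d) (A (d + 1)) (A' (so a (r + 1) - d)) (A' (so a (r + 1) - (d + 1)))
      (hA1 d) (hA1 (d + 1)) (hA1' _) (hA1' _) ?_ ?_ ?_
    · have e1 := hA3 d
      have e2 := hA3' (so a (r + 1) - d)
      have e3 := hd' d hds.le
      have e4 := r1 d hds.le
      have e5 := hQ d
      omega
    · have e1 := hA3 (d + 1)
      have e2 := hA3' (so a (r + 1) - (d + 1))
      have e3 := hd' (d + 1) hds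
      have e4 := r1 (d + 1) hds
      have e5 := hQ (d + 1)
      omega
    · have e6 : so a (r + 1) - d = so a (r + 1) - (d + 1) + 1 := by omega
      rw [e6]
      exact low hMOM hSGE a r I' hR' _ (by omega) _ _ (hA1' _) (hA1' _) (hA3' _) (hA3' _)
  · intro y hy
    rw [(hMOM _ _ d y).2, r3 (d + 1) (by omega)] at hy
    exact absurd hy.1 (Finset.notMem_empty y)

theorem ca_snoc (a : ℕ → ℕ) (r m : ℕ) (hrm : r ≤ m) :
    (Fin.snoc (ca a r m) ⊤ : Fin (m + 1) → ℕ∞) = ca a r (m + 1) := by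
  funext i
  by_cases hi : i = Fin.last m
  · rw [hi, Fin.snoc_last]
    unfold ca
    rw [if_neg (by rw [Fin.val_last]; omega)]
  · obtain ⟨i', rfl⟩ := Fin.exists_castSucc_eq.2 hi
    rw [Fin.snoc_castSucc]
    unfold ca
    rw [Fin.val_castSucc]

theorem ag_ca (a : ℕ → ℕ) (r m : ℕ) (hmono : Monotone a) (ha2 : 2 ≤ a 0) : Ag (ca a r m) := by
  constructor
  · intro i j hij
    unfold ca
    by_cases hj : (j : ℕ) < r
    · have hi : (i : ℕ) < r := lt_of_le_of_lt (Fin.le_def.1 hij) hj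
      rw [if_pos hi, if_pos hj]
      exact_mod_cast hmono (Fin.le_def.1 hij)
    · rw [if_neg hj]
      exact le_top
  · intro i
    unfold ca
    by_cases hi : (i : ℕ) < r
    · rw [if_pos hi]
      have := ha2.trans (hmono (Nat.zero_le (i : ℕ)))
      exact_mod_cast this
    · rw [if_neg hi]
      exact le_top

/-- INDG. -/
theorem t_indg (hBAS : BASGStmt) (hSTP : STPGStmt) (hHFS : Pool.EGC.HFSStmt) (hPNM : PNMStmt)
    (hRLF : RLFStmt) (hPEM : PEMStmt) (hHGM : HGMStmt) : INDGStmt := by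
  intro a r hmono ha2 hr hso hEG K _ _ N k m J I hkm hm
  have hinf : Infinite K := IsAlgClosed.instInfinite
  obtain ⟨t, rfl⟩ : ∃ t, m = r + 1 + t := ⟨m - (r + 1), by omega⟩
  clear hm
  induction t generalizing k J I with
  | zero =>
    intro hJ hJI hI
    exact hBAS a r hmono ha2 hr hso hEG K N k J I hkm hJ hJI hI
  | succ t ih =>
    intro hJ hJI hI
    have hJg : Hg J := hHGM K N k _ J hJ
    obtain ⟨l, hl, hreg⟩ := hRLF K N J hJg (hPNM K N k _ J hJ (by rw [dl_length]; omega))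
    have hJ' := hPEM K N k _ J l hJ hl hreg
    obtain ⟨h1, -⟩ := hHFS K N I l hI hl
    have key := hSTP K N (r + 1 + t) (ca a (r + 1) (r + 1 + t)) I l (by omega)
      (ag_ca a _ _ hmono ha2) hI hl ?_
    · rw [ca_snoc a _ _ (by omega)] at key
      exact key
    · intro j
      obtain ⟨h2, h3, -⟩ := h1 j
      exact ih (k + 1) (J ⊔ Ideal.span {l}) (cj I l j ⊔ Ideal.span {l}) (by omega) hJ'
        (sup_le_sup_right (hJI.trans h3) _) h2

/-- EGRG. -/
theorem t_egrg (hIND : INDStmt) (hINDG : INDGStmt) : EGRGStmt := by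
  intro a r hmono ha2 hfast hr
  obtain ⟨t, rfl⟩ : ∃ t, r = 3 + t := ⟨r - 3, by omega⟩
  clear hr
  induction t with
  | zero =>
    intro K _ _ N k m J I hkm hm hJ hJI hI
    have h1 : ca a (3 + 0) m = cp (a 0) (a 1) (a 2) m := by
      funext i
      simp only [ca, cp, Nat.add_zero]
      by_cases h0 : (i : ℕ) = 0
      · rw [if_pos (by omega), if_pos h0, h0]
      · by_cases h1 : (i : ℕ) = 1
        · rw [if_pos (by omega), if_neg h0, if_pos h1, h1]
        · by_cases h2 : (i : ℕ) = 2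
          · rw [if_pos (by omega), if_neg h0, if_neg h1, if_pos h2, h2]
          · rw [if_neg (by omega), if_neg h0, if_neg h1, if_neg h2]
    rw [h1]
    exact hIND K N k m (a 0) (a 1) (a 2) J I hkm hm ha2 (hmono (by decide)) (hmono (by decide))
      hJ hJI hI
  | succ t ih =>
    exact hINDG a (3 + t) hmono ha2 (by omega) (hfast (3 + t) (by omega) (by omega))
      (ih fun j h1 h2 => hfast j h1 (by omega))

end Pool.EG4
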