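import Pool.Agent.H45.EG4.MID
import Pool.Agent.H45.EG4.BASG

/-!
# EG4: the case of full length when the last degree is the socle degree of the others
-/

set_option autoImplicit false

namespace Pool.EG4

open MvPolynomial Pool.EGH
open Pool.EG3 (Cp Mo up Sg cp Cm CLm Rz MC PNMStmt PEMStmt HGMStmt mc_inv SGEStmt MOMStmt
  INDStmt SUPStmt mul_mem' hf_eq_zero_iff t_ln0)
open Pool.EGC (lx sl cj Gs LXOStmt)

theorem ca_self (a : ℕ → ℕ) (r : ℕ) : ca a r r = fun i : Fin r => ((a i : ℕ) : ℕ∞) := by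
  funext i
  unfold ca
  rw [if_pos i.isLt]

theorem so_fin (a : ℕ → ℕ) (r : ℕ) : so a r = ∑ i : Fin r, (a i - 1) := by
  unfold so
  rw [Finset.sum_range]

/-- Complete intersections of dimension one. -/
theorem dp_of (hMOM : MOMStmt) (hQHF : QHFGStmt) (hGOR : GORGStmt) (hREV : REVGStmt)
    (hPNM : PNMStmt) (hRLF : RLFStmt) (hPEM : PEMStmt) (hHGM : HGMStmt) {K : Type} [Field K]
    [Infinite K] {N k r t : ℕ} {a : ℕ → ℕ} {P : Ideal (PR K N)} (ha : ∀ i, 2 ≤ a i)
    (hr : 2 ≤ r) (hk : k + (r + 1) = N) (hP : MC k (dl a r) P) (ht : t + 1 = so a r) :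
    DP P t := by
  obtain ⟨r1, r2, r3, -⟩ := hREV r (fun i => a i) (so a r)
    (fun i => by have := ha i; omega) (so_fin a r)
  rw [← ca_self] at r1 r2 r3
  have hg := hHGM K N k _ P hP
  have hMC : ∀ l ∈ fm K N 1, Rg P l → MC (k + 1) (dl a r) (P ⊔ Ideal.span {l}) :=
    fun l hl hr => hPEM K N k _ P l hP hl hr
  have hQ : ∀ l ∈ fm K N 1, Rg P l → ∀ d, hf (P ⊔ Ideal.span {l}) d = (Mo (ca a r r) d).card :=
    fun l hl hr' d => hQHF K N (k + 1) r a _ (by omega) (hMC l hl hr') d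
  refine ⟨hg, hRLF K N P hg (hPNM K N k _ P hP (by rw [dl_length]; omega)), ?_, ?_, ?_, ?_⟩
  · intro l hl hlr s hs z hz h
    refine hGOR K N (k + 1) (dl a r) _ (hMC l hl hlr) (by rw [dl_length]; omega) s ?_ z hz h
    rw [dl_sum]
    omega
  · intro l hl hlr
    rw [hQ l hl hlr, ht]
    have := r1 0 (Nat.zero_le _)
    rw [Nat.sub_zero] at this
    rw [this, r2]
  · intro l hl hlr
    rw [hQ l hl hlr, r3 (t + 2) (by omega), Finset.card_empty]
  · intro l hl hlr
    rw [hQ l hl hlr]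
    have h1 := r1 1 (by omega)
    have h2 : so a r - 1 = t := by omega
    rw [h2] at h1
    rw [h1]
    have hmem : ∀ i : Fin r, Pi.single i 1 ∈ Mo (ca a r r) 1 := by
      intro i
      rw [mo_mem hMOM]
      refine ⟨?_, fun j => ?_⟩
      · rw [Finset.sum_pi_single']
        simp
      · have h3 : (Pi.single i 1 : Fin r → ℕ) j < a j := by
          have := ha j
          by_cases h : j = i
          · rw [h, Pi.single_eq_same, ← h]
            omega
          · rw [Pi.single_eq_of_ne h]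
            omega
        rw [ca_self]
        change (((Pi.single i 1 : Fin r → ℕ) j : ℕ) : ℕ∞) < ((a j : ℕ) : ℕ∞)
        exact_mod_cast h3
    have hne : (Pi.single (⟨0, by omega⟩ : Fin r) 1 : Fin r → ℕ) ≠
        Pi.single (⟨1, by omega⟩ : Fin r) 1 := by
      intro h
      have := congrFun h ⟨0, by omega⟩
      rw [Pi.single_eq_same, Pi.single_eq_of_ne (by simp)] at this
      omega
    exact Finset.one_lt_card.2 ⟨_, hmem ⟨0, by omega⟩, _, hmem ⟨1, by omega⟩, hne⟩

/-- The shadow of a segment in the middle degree. -/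
theorem shd (hMOM : MOMStmt) (hLXO : LXOStmt) {a : ℕ → ℕ} {r t : ℕ} (ha : ∀ i, 2 ≤ a i)
    (ht : t + 1 = so a r) {A : Finset (Fin (r + 1) → ℕ)}
    (hA : Sg (ca a (r + 1) (r + 1)) t A) :
    (up (ca a (r + 1) (r + 1)) t A).card ≤ A.card + 1 := by
  classical
  set T : Fin (r + 1) → ℕ := fun i => if (i : ℕ) < r then a i - 1 else 0 with hT
  have hsub : up (ca a (r + 1) (r + 1)) t A ⊆
      insert T (A.image (fun x => x + Pi.single (Fin.last r) 1)) := by
    intro y hy
    obtain ⟨hy1, x, hx, i, hxy⟩ := ((hMOM _ _ t y).2 A y).1 hy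
    rw [mo_mem hMOM] at hy1
    obtain ⟨hy2, hy3⟩ := hy1
    have hcap : ∀ j : Fin (r + 1), y j < a j := by
      intro j
      have := hy3 j
      rw [ca_self] at this
      change ((y j : ℕ) : ℕ∞) < ((a j : ℕ) : ℕ∞) at this
      exact_mod_cast this
    by_cases hyl : y (Fin.last r) = 0
    · rw [Finset.mem_insert]
      left
      have h1 : ∀ j : Fin r, y (Fin.castSucc j) ≤ a j - 1 := by
        intro j
        have := hcap (Fin.castSucc j)
        rw [Fin.val_castSucc] at this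
        omega
      have h2 : ∑ j : Fin r, y (Fin.castSucc j) = ∑ j : Fin r, (a j - 1) := by
        rw [← so_fin, ← ht, ← hy2, Fin.sum_univ_castSucc, hyl, add_zero]
      have h3 := (Finset.sum_eq_sum_iff_of_le (fun j _ => h1 j)).1 h2
      funext j
      by_cases hj : j = Fin.last r
      · rw [hj, hyl, hT]
        simp
      · obtain ⟨j', rfl⟩ := Fin.exists_castSucc_eq.2 hj
        rw [h3 j' (Finset.mem_univ _), hT]
        simp
    · rw [Finset.mem_insert, Finset.mem_image]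
      right
      by_cases hi : i = Fin.last r
      · exact ⟨x, hx, by rw [hxy, hi]⟩
      · have hxl : x (Fin.last r) ≠ 0 := by
          intro h
          apply hyl
          rw [hxy, Pi.add_apply, h, Pi.single_eq_of_ne (fun h => hi h.symm), add_zero]
        set z : Fin (r + 1) → ℕ := x - Pi.single (Fin.last r) 1 with hz
        have hxz : x = z + Pi.single (Fin.last r) 1 := by
          funext j
          rw [hz, Pi.add_apply, Pi.sub_apply]
          by_cases hj : j = Fin.last r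
          · rw [hj, Pi.single_eq_same]
            omega
          · rw [Pi.single_eq_of_ne hj]
            omega
        have hyz : y = (z + Pi.single i 1) + Pi.single (Fin.last r) 1 := by
          rw [hxy, hxz]
          abel
        refine ⟨z + Pi.single i 1, ?_, hyz.symm⟩
        refine hA.2 x hx _ ?_ ?_
        · rw [mo_mem hMOM]
          constructor
          · have h1 := hy2
            rw [hyz] at h1
            simp only [Pi.add_apply, Finset.sum_add_distrib] at h1 ⊢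
            have h2 : ∑ j, (Pi.single (Fin.last r) 1 : Fin (r + 1) → ℕ) j = 1 := by
              rw [Finset.sum_pi_single']
              simp
            omega
          · intro j
            refine lt_of_le_of_lt ?_ (hy3 j)
            rw [hyz, Pi.add_apply (z + Pi.single i 1)]
            exact_mod_cast Nat.le_add_right _ _
        · rw [hxz]
          exact (hLXO (r + 1) z z z).2.2.2.2 i (Fin.last r)
            (lt_of_le_of_ne (Fin.le_last i) hi)
  refine (Finset.card_le_card hsub).trans ((Finset.card_insert_le _ _).trans ?_)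
  exact Nat.add_le_add_right Finset.card_image_le 1

/-- The middle degree. -/
theorem mdl (hMOM : MOMStmt) (hSGE : SGEStmt) (hSUP : SUPStmt) (hLXO : LXOStmt)
    {K : Type} [Field K] [IsAlgClosed K] {N : ℕ} {a : ℕ → ℕ} {r t M : ℕ}
    (ha : ∀ i, 2 ≤ a i) (ht : t + 1 = so a r) {P : Ideal (PR K N)} {q : PR K N}
    (hD : DP P t) (hq : q ∈ fm K N (t + 1)) (hqr : Rg P q)
    (hM : ∀ f ∈ fm K N M, f ∈ P ⊔ Ideal.span {q}) {J I : Ideal (PR K N)}
    (hJ : J = P ⊔ Ideal.span {q}) (hJI : J ≤ I) (hI : Hg I)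
    (hQ : ∀ d, hf J d = (Mo (ca a (r + 1) (r + 1)) d).card)
    (hsym : (Mo (ca a (r + 1) (r + 1)) (t + 1)).card = (Mo (ca a (r + 1) (r + 1)) t).card)
    (A B : Finset (Fin (r + 1) → ℕ)) (hA : Sg (ca a (r + 1) (r + 1)) t A)
    (hB : Sg (ca a (r + 1) (r + 1)) (t + 1) B)
    (hAc : hf I t + A.card = (Mo (ca a (r + 1) (r + 1)) t).card)
    (hBc : hf I (t + 1) + B.card = (Mo (ca a (r + 1) (r + 1)) (t + 1)).card) :
    up (ca a (r + 1) (r + 1)) t A ⊆ B := by
  classical
  refine (hSGE _ _ _).2 _ _ (hSUP _ _ _ _ hA) hB ?_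
  have hPJ : P ≤ J := by rw [hJ]; exact le_sup_left
  have hqI : q ∈ I := hJI (by
    rw [hJ]
    exact Ideal.mem_sup_right (Ideal.mem_span_singleton_self q))
  by_cases hA0 : A = ∅
  · have : up (ca a (r + 1) (r + 1)) t A = ∅ := by
      rw [Finset.eq_empty_iff_forall_notMem]
      intro y hy
      obtain ⟨-, x, hx, -⟩ := ((hMOM _ _ t y).2 A y).1 hy
      rw [hA0] at hx
      exact absurd hx (Finset.notMem_empty x)
    rw [this, Finset.card_empty]
    exact Nat.zero_le _
  by_cases h0 : hf I t = 0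
  · have h1 := t_ln0 t_FIN K N I t hI h0
    have h2 : (up (ca a (r + 1) (r + 1)) t A).card ≤ (Mo (ca a (r + 1) (r + 1)) (t + 1)).card :=
      Finset.card_le_card fun y hy => (((hMOM _ _ t y).2 A y).1 hy).1
    omega
  have h1 := shd hMOM hLXO ha ht hA
  have h2 : 0 < A.card := Finset.card_pos.2 (Finset.nonempty_iff_ne_empty.2 hA0)
  have h3 : ∃ u ∈ I, u ∈ fm K N t ∧ u ∉ P := by
    by_contra hcon
    push Not at hcon
    have h4 := (mond hcon).1
    have h5 := (t_MON K N P J t hPJ).1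
    have h6 := hQ t
    omega
  obtain ⟨u, hu, hut, huP⟩ := h3
  have h4 := bnd hD hI (hPJ.trans hJI) hu hut huP
  have h5 : hf I (t + 1) ≠ hf I t := by
    intro h
    exact h0 (mid hD hq hqr hM (hf I t) I hI (hPJ.trans hJI) hqI rfl h ⟨u, hu, hut, huP⟩)
  omega

/-- The statement for the case of equality. -/
theorem t_base (hMOM : MOMStmt) (hSGE : SGEStmt) (hSUP : SUPStmt) (hLXO : LXOStmt)
    (hQHF : QHFGStmt) (hLNK : LNKGStmt)
    (hREV : REVGStmt) (hMON : MONStmt) (hGOR : GORGStmt)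
    (hPNM : PNMStmt) (hRLF : RLFStmt) (hPEM : PEMStmt) (hHGM : HGMStmt) :
    ∀ (a : ℕ → ℕ) (r : ℕ), Monotone a → 2 ≤ a 0 → 3 ≤ r → so a r = a r → EGr a r →
    ∀ (K : Type) [Field K] [IsAlgClosed K] (N k : ℕ) (J I : Ideal (PR K N)), k + (r + 1) = N →
      MC k (dl a (r + 1)) J → J ≤ I → Hg I → Rz I (ca a (r + 1) (r + 1)) := by
  intro a r hmono ha2 hr hso hEG K _ _ N k J I hkN hJ hJI hI
  have hinf : Infinite K := IsAlgClosed.instInfinite
  have ha : ∀ i, 2 ≤ a i := fun i => ha2.trans (hmono (Nat.zero_le i))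
  obtain ⟨r1, r2, r3, r4⟩ := hREV (r + 1) (fun i => a i) (so a (r + 1))
    (fun i => by have := ha i; omega) (so_fin a (r + 1))
  rw [← ca_self] at r1 r2 r3 r4
  have hQ : ∀ d, hf J d = (Mo (ca a (r + 1) (r + 1)) d).card :=
    hQHF K N k (r + 1) a J hkN hJ
  have hJs : hf J (so a (r + 1)) = 1 := by
    rw [hQ]
    have := r1 0 (Nat.zero_le _)
    rw [Nat.sub_zero] at this
    rw [this, r2]
  obtain ⟨I', hI', hJI', hd'⟩ := hLNK K N k (dl a (r + 1)) J I hJ (by rw [dl_length]; exact hkN)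
    hJI hI (so a (r + 1)) (dl_sum a (r + 1)).symm hJs (fun d hd => by rw [hQ, hQ, r1 d hd])
  obtain ⟨J1, q, hJq, hJ1, -, hq, hqr⟩ := mc_inv hJ
  have hJ1J : J1 ≤ J := by rw [hJq]; exact le_sup_left
  have hR : Rz I (ca a r (r + 1)) := hEG K N k (r + 1) J1 I hkN (Nat.le_succ r) hJ1
    (hJ1J.trans hJI) hI
  have hR' : Rz I' (ca a r (r + 1)) := hEG K N k (r + 1) J1 I' hkN (Nat.le_succ r) hJ1
    (hJ1J.trans hJI') hI'
  have hle : ∀ d, hf I d ≤ (Mo (ca a (r + 1) (r + 1)) d).card := by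
    intro d
    rw [← hQ d]
    exact (hMON K N J I d hJI).1
  have hle' : ∀ d, hf I' d ≤ (Mo (ca a (r + 1) (r + 1)) d).card := by
    intro d
    rw [← hQ d]
    exact (hMON K N J I' d hJI').1
  choose A hA1 hA2 using fun d => (hSGE (r + 1) (ca a (r + 1) (r + 1)) d).1
    ((Mo (ca a (r + 1) (r + 1)) d).card - hf I d) (Nat.sub_le _ _)
  choose A' hA1' hA2' using fun d => (hSGE (r + 1) (ca a (r + 1) (r + 1)) d).1
    ((Mo (ca a (r + 1) (r + 1)) d).card - hf I' d) (Nat.sub_le _ _)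
  have hA3 : ∀ d, hf I d + (A d).card = (Mo (ca a (r + 1) (r + 1)) d).card := by
    intro d
    rw [hA2]
    have := hle d
    omega
  have hA3' : ∀ d, hf I' d + (A' d).card = (Mo (ca a (r + 1) (r + 1)) d).card := by
    intro d
    rw [hA2']
    have := hle' d
    omega
  have hss := so_succ a r
  have har := ha r
  refine ⟨A, hA1, fun d => ?_, hA3⟩
  by_cases hd : d + 1 < a r
  · exact low hMOM hSGE a r I hR d hd _ _ (hA1 d) (hA1 (d + 1)) (hA3 d) (hA3 (d + 1))
  by_cases hde : d + 1 = a r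
  · have hD : DP J1 d := dp_of hMOM hQHF hGOR hREV hPNM hRLF hPEM hHGM ha (by omega) hkN hJ1
      (by omega)
    rw [← hde] at hq
    have hM : ∀ f ∈ fm K N (so a (r + 1) + 1), f ∈ J1 ⊔ Ideal.span {q} := by
      rw [← hJq, ← hf_eq_zero_iff t_FIN, hQ, r3 _ (Nat.lt_succ_self _), Finset.card_empty]
    refine mdl hMOM hSGE hSUP hLXO ha (by omega) hD hq hqr hM hJq hJI hI hQ ?_ _ _ (hA1 d)
      (hA1 (d + 1)) (hA3 d) (hA3 (d + 1))
    have h1 := r1 d (by omega)
    have h2 : so a (r + 1) - d = d + 1 := by omega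
    rwa [h2] at h1
  by_cases hds : d < so a (r + 1)
  · refine r4 d hds (A d) (A (d + 1)) (A' (so a (r + 1) - d)) (A' (so a (r + 1) - (d + 1)))
      (hA1 d) (hA1 (d + 1)) (hA1' _) (hA1' _) ?_ ?_ ?_
    · have e1 := hA3 d
      have e2 := hA3' (so a (r + 1) - d)
      have e3 := hd' d hds.le
      have e4 := r1 d hds.le
      have e5 := hQ d
      omega
    · have e1 := hA3 (d + 1)
      have e2 := hA3' (so a (r + 1) - (d + 1))
      have e3 := hd' (d + 1) hds
      have e4 := r1 (d + 1) hds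
      have e5 := hQ (d + 1)
      omega
    · have e6 : so a (r + 1) - d = so a (r + 1) - (d + 1) + 1 := by omega
      rw [e6]
      exact low hMOM hSGE a r I' hR' _ (by omega) _ _ (hA1' _) (hA1' _) (hA3' _) (hA3' _)
  · intro y hy
    rw [(hMOM _ _ d y).2, r3 (d + 1) (by omega)] at hy
    exact absurd hy.1 (Finset.notMem_empty y)

/-- The case of full length. -/
theorem t_basl (hBAS : BASGStmt)
    (hBASE : ∀ (a : ℕ → ℕ) (r : ℕ), Monotone a → 2 ≤ a 0 → 3 ≤ r → so a r = a r → EGr a r →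
    ∀ (K : Type) [Field K] [IsAlgClosed K] (N k : ℕ) (J I : Ideal (PR K N)), k + (r + 1) = N →
      MC k (dl a (r + 1)) J → J ≤ I → Hg I → Rz I (ca a (r + 1) (r + 1))) :
    ∀ (a : ℕ → ℕ) (r : ℕ), Monotone a → 2 ≤ a 0 → 3 ≤ r → so a r ≤ a r → EGr a r →
    ∀ (K : Type) [Field K] [IsAlgClosed K] (N k : ℕ) (J I : Ideal (PR K N)), k + (r + 1) = N →
      MC k (dl a (r + 1)) J → J ≤ I → Hg I → Rz I (ca a (r + 1) (r + 1)) := by
  intro a r hmono ha2 hr hso
  rcases Nat.lt_or_eq_of_le hso with h | h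
  · exact hBAS a r hmono ha2 hr h
  · exact hBASE a r hmono ha2 hr h

/-- Any number of variables. -/
theorem t_indl (hBAS : ∀ (a : ℕ → ℕ) (r : ℕ), Monotone a → 2 ≤ a 0 → 3 ≤ r → so a r ≤ a r →
    EGr a r → ∀ (K : Type) [Field K] [IsAlgClosed K] (N k : ℕ) (J I : Ideal (PR K N)),
      k + (r + 1) = N → MC k (dl a (r + 1)) J → J ≤ I → Hg I → Rz I (ca a (r + 1) (r + 1)))
    (hSTP : STPGStmt) (hHFS : Pool.EGC.HFSStmt) (hPNM : PNMStmt)
    (hRLF : RLFStmt) (hPEM : PEMStmt) (hHGM : HGMStmt) :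
    ∀ (a : ℕ → ℕ) (r : ℕ), Monotone a → 2 ≤ a 0 → 3 ≤ r → so a r ≤ a r → EGr a r →
      EGr a (r + 1) := by
  intro a r hmono ha2 hr hso hEG K _ _ N k m J I hkm hm
  have hinf : Infinite K := IsAlgClosed.instInfinite
  obtain ⟨t, rfl⟩ : ∃ t, m = r + 1 + t := ⟨m - (r + 1), by omega⟩
  clear hm
  induction t generalizing k J I with
  | zero =>
    intro hJ hJI hI
    exact hBAS a r hmono ha2 hr hso hEG K N k J I hkm hJ hJI hI
  | succ t ih =>
    intro hJ hJI hI
    have hJg : Hg J := hHGM K N k _ J hJ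
    obtain ⟨l, hl, hreg⟩ := hRLF K N J hJg (hPNM K N k _ J hJ (by rw [dl_length]; omega))
    have hJ' := hPEM K N k _ J l hJ hl hreg
    obtain ⟨h1, -⟩ := hHFS K N I l hI hl
    have key := hSTP K N (r + 1 + t) (ca a (r + 1) (r + 1 + t)) I l (by omega)
      (ag_ca a _ _ hmono ha2) hI hl ?_
    · rw [ca_snoc a _ _ (by omega)] at key
      exact key
    · intro j
      obtain ⟨h2, h3, -⟩ := h1 j
      exact ih (k + 1) (J ⊔ Ideal.span {l}) (cj I l j ⊔ Ideal.span {l}) (by omega) hJ'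
        (sup_le_sup_right (hJI.trans h3) _) h2

/-- EGRL: the theorem over algebraically closed fields, the degrees grow fast. -/
def EGRLStmt : Prop :=
  ∀ (a : ℕ → ℕ) (r : ℕ), Monotone a → 2 ≤ a 0 → (∀ j, 3 ≤ j → j < r → so a j ≤ a j) →
    3 ≤ r → EGr a r

theorem t_egrl (hIND : INDStmt)
    (hINDL : ∀ (a : ℕ → ℕ) (r : ℕ), Monotone a → 2 ≤ a 0 → 3 ≤ r → so a r ≤ a r → EGr a r →
      EGr a (r + 1)) : EGRLStmt := by
  intro a r hmono ha2 hfast hr
  obtain ⟨t, rfl⟩ : ∃ t, r = 3 + t := ⟨r - 3, by omega⟩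
  clear hr
  induction t with
  | zero =>
    intro K _ _ N k m J I hkm hm hJ hJI hI
    have h1 : ca a (3 + 0) m = cp (a 0) (a 1) (a 2) m := by
      funext i
      simp only [ca, cp, Nat.add_zero]
      by_cases h0 : (i : ℕ) = 0
      · rw [if_pos (by omega), if_pos h0, h0]
      · by_cases h1 : (i : ℕ) = 1
        · rw [if_pos (by omega), if_neg h0, if_pos h1, h1]
        · by_cases h2 : (i : ℕ) = 2
          · rw [if_pos (by omega), if_neg h0, if_neg h1, if_pos h2, h2]
          · rw [if_neg (by omega), if_neg h0, if_neg h1, if_neg h2]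
    rw [h1]
    exact hIND K N k m (a 0) (a 1) (a 2) J I hkm hm ha2 (hmono (by decide)) (hmono (by decide))
      hJ hJI hI
  | succ t ih =>
    exact hINDL a (3 + t) hmono ha2 (by omega) (hfast (3 + t) (by omega) (by omega))
      (ih fun j h1 h2 => hfast j h1 (by omega))

end Pool.EG4
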