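import Pool.Agent.H45.EG4.S

/-!
# EG4, row CMPG: compression at a place
-/

set_option autoImplicit false

namespace Pool.EG4

open Finset Pool.EGH
open Pool.EG3 (Cp Mo up Sg cp rk wt Cm CLm Rz MC SGEStmt SUPStmt SL1Stmt SL2Stmt SL3Stmt SL4Stmt
  CMWStmt)
open Pool.EGC (lx sl cj Gs)

theorem ag_comp {m : ℕ} {c : Fin (m + 1) → ℕ∞} (hc : Ag c) (i : Fin (m + 1)) :
    Ag (c ∘ i.succAbove) :=
  ⟨hc.1.comp (Fin.strictMono_succAbove i).monotone, fun j => hc.2 _⟩

/-- CMPG. -/
theorem t_cmpg (hG : SGEStmt) (hU : SUPStmt) (hS1 : SL1Stmt) (hS2 : SL2Stmt) (hS3 : SL3Stmt)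
    (hS4 : SL4Stmt) (hW : CMWStmt) : CMPGStmt := by
  classical
  intro m hm c hc d A i hA
  set c' : Fin m → ℕ∞ := c ∘ i.succAbove with hc'
  obtain ⟨-, hlx, hMo⟩ := hS2 m c i
  obtain ⟨hA1, hA2, hA3, hA4, hA5⟩ := hS1 m c d i A hA
  -- the segments
  have hex : ∀ t, ∃ T : Finset (Fin m → ℕ), (t ≤ d → Sg c' (d - t) T) ∧
      (t ≤ d → T.card = (sl i t A).card) := by
    intro t
    by_cases ht : t ≤ d
    · obtain ⟨T, hT, hTc⟩ := (hG m c' (d - t)).1 (sl i t A).card (card_le_card (hA2 t ht))
      exact ⟨T, fun _ => hT, fun _ => hTc⟩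
    · exact ⟨∅, fun h => absurd h ht, fun h => absurd h ht⟩
  choose T hT hTc using hex
  obtain ⟨A', hA', hsl⟩ := hS4 m c d i T (fun t ht => (hT t ht).1)
  obtain ⟨hB1, hB2, hB3, hB4, hB5⟩ := hS1 m c d i A' hA'
  have hcard : ∀ t, (sl i t A').card = (sl i t A).card := by
    intro t
    by_cases ht : t ≤ d
    · by_cases hci : c i ≤ (t : ℕ∞)
      · rw [hB4 t hci, hA4 t hci]
      · have hcond : (t : ℕ∞) < c i := not_le.mp hci
        rw [hsl t ht hcond, hTc t ht]
    · rw [hB3 t (not_le.mp ht), hA3 t (not_le.mp ht)]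
  have hupA : up c d A ⊆ Mo c (d + 1) := filter_subset _ _
  have hupA' : up c d A' ⊆ Mo c (d + 1) := filter_subset _ _
  obtain ⟨-, -, hC3, hC4, hC5⟩ := hS1 m c (d + 1) i _ hupA
  obtain ⟨-, -, hD3, hD4, hD5⟩ := hS1 m c (d + 1) i _ hupA'
  have hcm : Cm c d i A' := by
    intro x hx y hy hxy hlt
    have hx' : (i.insertNth (x i) (fun j => x (i.succAbove j)) : Fin (m + 1) → ℕ) = x := by
      have := Fin.insertNth_self_removeNth i x
      exact this
    have hy' : (i.insertNth (x i) (fun j => y (i.succAbove j)) : Fin (m + 1) → ℕ) = y := by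
      rw [hxy]
      have := Fin.insertNth_self_removeNth i y
      exact this
    have hxM := hA' hx
    have hxs : (fun j => x (i.succAbove j)) ∈ sl i (x i) A' := by
      rw [hB1, hx']; exact hx
    rw [← hx', hMo] at hxM
    rw [← hy', hMo] at hy
    have hlt' : lx (fun j => x (i.succAbove j)) (fun j => y (i.succAbove j)) := by
      rw [← hlx (x i), hx', hy']; exact hlt
    rw [hsl _ hxM.1 hxM.2.1] at hxs
    have := (hT _ hxM.1).2 _ hxs _ hy.2.2 hlt'
    rw [← hsl _ hxM.1 hxM.2.1, hB1, hy'] at this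
    exact this
  refine ⟨A', hA', ?_, ?_, hcm, fun hne => hW m c d i A A' hA hA' hcard hcm hne⟩
  · rw [hB5, hA5]
    exact sum_congr rfl (fun t _ => hcard t)
  · rw [hC5, hD5]
    refine sum_le_sum (fun t ht => ?_)
    rw [mem_range] at ht
    by_cases hci : c i ≤ (t : ℕ∞)
    · rw [hD4 t hci]; simp
    have hcond : (t : ℕ∞) < c i := not_le.mp hci
    have h3A := hS3 m c d i A hA t hcond
    have h3B := hS3 m c d i A' hA' t hcond
    -- first part
    have hp1 : t ≤ d → (up c' (d - t) (sl i t A')).card ≤ (sl i t (up c d A)).card := by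
      intro htd
      rw [hsl t htd hcond]
      refine (hm c' (ag_comp hc i) (d - t) (sl i t A) (T t) (hA2 t htd) (hT t htd) (hTc t htd)).trans
        (card_le_card ?_)
      intro x hx
      rw [h3A]
      exact Or.inl ⟨htd, hx⟩
    have hp2 : 1 ≤ t → (sl i (t - 1) A').card ≤ (sl i t (up c d A)).card := by
      intro ht1
      rw [hcard]
      refine card_le_card ?_
      intro x hx
      rw [h3A]
      exact Or.inr ⟨ht1, hx⟩
    by_cases htd : t ≤ d
    · by_cases ht1 : 1 ≤ t
      · have hs1 : Sg c' (d - t + 1) (up c' (d - t) (sl i t A')) := by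
          rw [hsl t htd hcond]
          exact hU m c' (d - t) _ (hT t htd)
        have hs2 : Sg c' (d - t + 1) (sl i (t - 1) A') := by
          rw [hsl (t - 1) (by omega) (lt_of_le_of_lt (by exact_mod_cast Nat.sub_le t 1) hcond)]
          have := hT (t - 1) (by omega)
          rwa [show d - (t - 1) = d - t + 1 by omega] at this
        rcases le_total (up c' (d - t) (sl i t A')).card (sl i (t - 1) A').card with hle | hle
        · have hsub := (hG m c' (d - t + 1)).2 _ _ hs1 hs2 hle
          refine le_trans (card_le_card ?_) (hp2 ht1)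
          intro x hx
          rw [h3B] at hx
          rcases hx with h | h
          · exact hsub h.2
          · exact h.2
        · have hsub := (hG m c' (d - t + 1)).2 _ _ hs2 hs1 hle
          refine le_trans (card_le_card ?_) (hp1 htd)
          intro x hx
          rw [h3B] at hx
          rcases hx with h | h
          · exact h.2
          · exact hsub h.2
      · refine le_trans (card_le_card ?_) (hp1 htd)
        intro x hx
        rw [h3B] at hx
        rcases hx with h | h
        · exact h.2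
        · exact absurd h.1 ht1
    · refine le_trans (card_le_card ?_) (hp2 (by omega))
      intro x hx
      rw [h3B] at hx
      rcases hx with h | h
      · exact absurd h.1 htd
      · exact h.2

end Pool.EG4
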