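import Pool.Agent.H45.EG4.S
import Pool.Agent.H29.EGH.HGA
import Pool.Agent.H45.EG3.PNM

/-!
# EG4, row GORG: the socle of a complete intersection
-/

set_option autoImplicit false

namespace Pool.EG4

open MvPolynomial Pool.EGH
open Pool.EG3 (Cp Mo up Sg cp rk wt Cm CLm Rz MC PNMStmt PEMStmt HGMStmt mc_inv)
open Pool.EGC (lx sl cj Gs)

/-- GORG. -/
theorem t_gorg (hPNM : PNMStmt) (hRLF : RLFStmt) (hPEM : PEMStmt) (hHGM : HGMStmt) :
    GORGStmt := by
  intro K _ _ N k L
  induction L generalizing k with
  | nil =>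
    intro Q _ _ s hs
    exact absurd hs (by simp)
  | cons d L ih =>
    intro Q hQ hkr s hs z hz hsoc
    obtain ⟨J, q, rfl, hJ, hd, hq, hreg⟩ := mc_inv hQ
    rw [List.length_cons] at hkr
    rw [List.map_cons, List.sum_cons] at hs
    have hHg : Hg J := hHGM K N k L J hJ
    have hns := hPNM K N k L J hJ (by omega)
    obtain ⟨l, hl, hlr⟩ := hRLF K N J hHg hns
    have hJl := hPEM K N k L J l hJ hl hlr
    have hlz : homogeneousComponent (1 + s) (l * z) = l * z := by
      rw [HGA.hc_mul hl, homogeneousComponent_of_mem hz, if_pos rfl]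
    obtain ⟨j, hj, w, hw, hjw⟩ := Submodule.mem_sup.1 (hsoc l hl)
    obtain ⟨c, rfl⟩ := Ideal.mem_span_singleton'.1 hw
    rcases Nat.lt_or_ge (1 + s) d with hlt | hge
    · have h1 : l * z = homogeneousComponent (1 + s) j := by
        rw [← hlz, ← hjw, map_add, mul_comm c q, HGA.hc_mul_lt hq c hlt, add_zero]
      exact Ideal.mem_sup_left (hlr z (h1 ▸ hHg j hj _))
    · obtain ⟨t, ht⟩ : ∃ t, 1 + s = d + t := ⟨1 + s - d, by omega⟩
      set y := homogeneousComponent t c with hy
      have hyt : y ∈ fm K N t := homogeneousComponent_mem t c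
      set j1 := homogeneousComponent (d + t) j with hj1
      have hj1J : j1 ∈ J := hHg j hj _
      have h1 : l * z = j1 + q * y := by
        rw [← hlz, ← hjw, map_add, mul_comm c q, ht, HGA.hc_mul hq c t]
      have hyJl : y ∈ J ⊔ Ideal.span {l} := by
        refine ih (k + 1) _ hJl (by omega) t (by omega) y hyt fun m hm => ?_
        obtain ⟨j', hj', w', hw', hjw'⟩ := Submodule.mem_sup.1 (hsoc m hm)
        obtain ⟨c', rfl⟩ := Ideal.mem_span_singleton'.1 hw'
        have h2 : q * (m * y - l * c') = l * j' - m * j1 := by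
          have e1 : l * (m * z) = l * (j' + c' * q) := by rw [hjw']
          have e2 : m * (l * z) = m * (j1 + q * y) := by rw [h1]
          linear_combination e1 - e2
        have h3 : q * (m * y - l * c') ∈ J := by
          rw [h2]
          exact sub_mem (Ideal.mul_mem_left _ _ hj') (Ideal.mul_mem_left _ _ hj1J)
        have h4 := hreg _ h3
        have h5 : m * y = (m * y - l * c') + l * c' := by ring
        rw [h5]
        exact add_mem (Ideal.mem_sup_left h4)
          (Ideal.mem_sup_right (Ideal.mul_mem_right _ _ (Ideal.mem_span_singleton_self l)))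
      obtain ⟨j2, hj2, w2, hw2, hjw2⟩ := Submodule.mem_sup.1 hyJl
      obtain ⟨y2, rfl⟩ := Ideal.mem_span_singleton'.1 hw2
      have h6 : l * (z - q * y2) = j1 + q * j2 := by
        linear_combination h1 - q * hjw2
      have h7 : z - q * y2 ∈ J := hlr _ (by
        rw [h6]
        exact add_mem hj1J (Ideal.mul_mem_left _ _ hj2))
      have h8 : z = (z - q * y2) + q * y2 := by ring
      rw [h8]
      exact add_mem (Ideal.mem_sup_left h7)
        (Ideal.mem_sup_right (Ideal.mul_mem_right _ _ (Ideal.mem_span_singleton_self q)))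

end Pool.EG4
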