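import Pool.Agent.H45.EG4.S
import Pool.Agent.H45.EG3.MOC
import Pool.Agent.H45.EG3.HZM

/-!
# EG4, rows MOCG, QHFG
-/

set_option autoImplicit false

namespace Pool.EG4

open MvPolynomial Pool.EGH
open Pool.EG3 (Cp Mo up Sg cp rk wt Cm CLm Rz MC MOMStmt HSMStmt moc_geo one_sub_X_ne)
open Pool.EGC (lx sl cj Gs)

theorem dl_prod (a : ℕ → ℕ) (r : ℕ) :
    ((dl a r).map (fun d => 1 - (PowerSeries.X : PowerSeries ℤ) ^ d)).prod =
      ∏ j : Fin r, (1 - (PowerSeries.X : PowerSeries ℤ) ^ a j) := by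
  induction r with
  | zero => simp [dl]
  | succ r ih =>
    rw [dl, List.map_cons, List.prod_cons, ih, Fin.prod_univ_castSucc, mul_comm]
    simp

/-- MOCG. -/
theorem t_mocg (hMOM : MOMStmt) : MOCGStmt := by
  classical
  intro a r
  set f : Fin r → PowerSeries ℤ := fun j =>
    PowerSeries.mk (fun n => if n < a j then (1 : ℤ) else 0) with hf
  have hcp : ∀ i : Fin r, ca a r r i = (a i : ℕ∞) := by
    intro i
    unfold ca
    rw [if_pos i.isLt]
  have h1 : PowerSeries.mk (fun d => ((Mo (ca a r r) d).card : ℤ)) =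
      ∏ j ∈ (Finset.univ : Finset (Fin r)), f j := by
    ext d
    rw [PowerSeries.coeff_mk, PowerSeries.coeff_prod]
    have h2 : ∀ l : Fin r →₀ ℕ, ∏ j ∈ (Finset.univ : Finset (Fin r)),
        PowerSeries.coeff (l j) (f j) = if ∀ j : Fin r, l j < a j then (1 : ℤ) else 0 := by
      intro l
      simp only [hf, PowerSeries.coeff_mk]
      rw [Finset.prod_ite_zero]
      simp
    simp only [h2]
    rw [Finset.sum_boole]
    congr 1
    refine Finset.card_bij (fun x _ => Finsupp.equivFunOnFinite.symm x) ?_ ?_ ?_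
    · intro x hx
      obtain ⟨e1, e2⟩ := (hMOM r _ d x).1.1 hx
      rw [Finset.mem_filter, Finset.mem_finsuppAntidiag]
      refine ⟨⟨?_, Finset.subset_univ _⟩, ?_⟩
      · simpa using e1
      · intro j
        have := e2 j
        rw [hcp] at this
        simpa using this
    · intro x _ y _ hxy
      exact Finsupp.equivFunOnFinite.symm.injective hxy
    · intro l hl
      rw [Finset.mem_filter, Finset.mem_finsuppAntidiag] at hl
      refine ⟨fun i => l i, ?_, ?_⟩
      · refine (hMOM r _ d _).1.2 ⟨hl.1.1, fun i => ?_⟩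
        rw [hcp]
        exact_mod_cast hl.2 i
      · ext i
        rfl
  rw [h1, dl_prod]
  have h3 : ∀ j, f j * (1 - PowerSeries.X) = 1 - (PowerSeries.X : PowerSeries ℤ) ^ a j :=
    fun j => moc_geo (a j)
  simp only [← h3]
  rw [Finset.prod_mul_distrib, Finset.prod_const, Finset.card_univ, Fintype.card_fin]

/-- QHFG. -/
theorem t_qhfg (hHSM : HSMStmt) (hMOC : MOCGStmt) : QHFGStmt := by
  intro K _ N k r a J hk hJ d
  have h1 := hHSM K N k (dl a r) J hJ
  have h2 := hMOC a r
  have h3 : PowerSeries.mk (fun i => (hf J i : ℤ)) =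
      PowerSeries.mk (fun d => ((Mo (ca a r r) d).card : ℤ)) := by
    apply mul_right_cancel₀ (one_sub_X_ne N)
    rw [h1, ← h2, ← hk, pow_add]
    ring
  have h4 := congrArg (PowerSeries.coeff d) h3
  rw [PowerSeries.coeff_mk, PowerSeries.coeff_mk] at h4
  exact_mod_cast h4

end Pool.EG4
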