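import Pool.Agent.H45.EG4.S

/-!
# EG4, rows CLTG, RZCG, STPG
-/

set_option autoImplicit false

namespace Pool.EG4

open MvPolynomial Pool.EGH
open Pool.EG3 (Cp Mo up Sg cp rk wt Cm CLm Rz MC SGEStmt SUPStmt SNCStmt CL3Stmt An)
open Pool.EGC (lx sl cj Gs)

theorem t_cltg (h3 : CL3Stmt) (hs : CLSGStmt) : CLTGStmt := by
  intro m
  induction m with
  | zero =>
    intro c hc
    exact h3 c ⟨hc.1, hc.2, fun i hi => absurd i.isLt (by omega)⟩
  | succ m ih => exact hs m ih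

theorem t_rzcg (h1 : CLTGStmt) (h2 : SGEStmt) (h3 : SUPStmt) : RZCGStmt := by
  intro K _ N m I c hm hc ⟨A, hA1, hA2, hA3⟩
  obtain ⟨m, rfl⟩ : ∃ m', m = m' + 3 := ⟨m - 3, by omega⟩
  choose B hB using fun d => (h2 (m + 3) c d).1 (A d).card (Finset.card_le_card (hA1 d))
  refine ⟨B, fun d => (hB d).1, fun d => ?_, fun d => by rw [(hB d).2]; exact hA3 d⟩
  refine (h2 (m + 3) c (d + 1)).2 _ _ (h3 (m + 3) c d _ (hB d).1) (hB (d + 1)).1 ?_
  rw [(hB (d + 1)).2]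
  exact (h1 m c hc d (A d) (B d) (hA1 d) (hB d).1 (hB d).2).trans
    (Finset.card_le_card (hA2 d))

theorem ag_snoc {m : ℕ} {c : Fin m → ℕ∞} (hc : Ag c) : Ag (Fin.snoc c ⊤ : Fin (m + 1) → ℕ∞) := by
  constructor
  · intro i j hij
    by_cases hj : j = Fin.last m
    · rw [hj, Fin.snoc_last]
      exact le_top
    · obtain ⟨j', rfl⟩ := Fin.exists_castSucc_eq.2 hj
      have hi : i ≠ Fin.last m := by
        rintro rfl
        exact absurd hij (not_le.2 (Fin.castSucc_lt_last j'))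
      obtain ⟨i', rfl⟩ := Fin.exists_castSucc_eq.2 hi
      rw [Fin.snoc_castSucc, Fin.snoc_castSucc]
      exact hc.1 (Fin.castSucc_le_castSucc_iff.1 hij)
  · intro i
    by_cases hi : i = Fin.last m
    · rw [hi, Fin.snoc_last]
      exact le_top
    · obtain ⟨i', rfl⟩ := Fin.exists_castSucc_eq.2 hi
      rw [Fin.snoc_castSucc]
      exact hc.2 i'

theorem t_stpg (hRZC : RZCGStmt) (hSNC : SNCStmt) (hHFS : Pool.EGC.HFSStmt)
    (hMON : MONStmt) (hSGE : SGEStmt) : STPGStmt := by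
  intro K _ N m c I l hm hc hI hl hRz
  choose A hA1 hA2 hA3 using hRz
  obtain ⟨hF1, hF2⟩ := hHFS K N I l hI hl
  have hmono : ∀ j d, A j d ⊆ A (j + 1) d := by
    intro j d
    refine (hSGE m c d).2 _ _ (hA1 j d) (hA1 (j + 1) d) ?_
    have h1 := hA3 j d
    have h2 := hA3 (j + 1) d
    have h3 := (hMON K N _ _ d (hF1 j).2.2).1
    omega
  obtain ⟨B, hB1, hB2, hB3⟩ := (hSNC m c).2 A (fun j d => (hA1 j d).1) hA2 hmono
  refine hRZC K N (m + 1) I _ (by omega) (ag_snoc hc) ⟨B, hB1, hB2, ?_⟩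
  intro d
  rw [hF2 d, hB3 d, (hSNC m c).1 d, ← Finset.sum_add_distrib]
  exact Finset.sum_congr rfl fun j _ => hA3 j (d - j)

end Pool.EG4
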