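import Pool.Agent.H45.EG3.All
import Pool.Agent.H45.EG4.CMPG
import Pool.Agent.H45.EG4.CLSG
import Pool.Agent.H45.EG4.EX2G
import Pool.Agent.H45.EG4.RZCG
import Pool.Agent.H45.EG4.MOCG
import Pool.Agent.H45.EG4.GORG
import Pool.Agent.H45.EG4.BASE
import Pool.Agent.H85.EG4.EX1G
import Pool.Agent.H85.EG4.REVG
import Pool.Agent.H43.EG4.LNKG

/-!
# EG4: the theorem over algebraically closed fields, assembled
-/

set_option autoImplicit false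

namespace Pool.EG4

open Pool.EGH

/-- The theorem of Clements and Lindström. -/
theorem clt_all : CLTGStmt := by
  have x_fin : FINStmt := t_FIN
  have x_hsb : HSBStmt := t_hsb
  have x_hga : HGAStmt := t_HGA
  have x_mon : MONStmt := t_MON
  have x_col : COLStmt := t_col x_fin
  have x_lsh : LSHStmt := t_lsh
  have x_lin : LINStmt := t_lin
  have x_rlf : RLFStmt := t_rlf
  have y_lxo : Pool.EGC.LXOStmt := Pool.EGC.t_lxo
  have y_mom : Pool.EG3.MOMStmt := Pool.EG3.t_mom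
  have y_sge : Pool.EG3.SGEStmt := Pool.EG3.t_sge
  have y_sup : Pool.EG3.SUPStmt := Pool.EG3.t_sup
  have y_top : Pool.EG3.TOPStmt := Pool.EG3.t_top y_lxo
  have y_cmw : Pool.EG3.CMWStmt := Pool.EG3.t_cmw y_mom y_lxo y_top
  have y_mnm : Pool.EG3.MNMStmt := Pool.EG3.t_mnm Pool.EGC.t_mni y_mom
  have y_fc3 : Pool.EG3.FC3Stmt := Pool.EG3.t_fc3 y_mom
  have y_cl3 : Pool.EG3.CL3Stmt := Pool.EG3.t_cl3 y_mom Pool.EG3.gro_all Pool.EG3.t_t3m y_mnm y_fc3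
  have y_hgm : Pool.EG3.HGMStmt := Pool.EG3.t_hgm
  have y_hsm : Pool.EG3.HSMStmt := Pool.EG3.t_hsm x_col x_hsb y_hgm
  have y_pem : Pool.EG3.PEMStmt := Pool.EG3.t_pem
  have y_pnm : Pool.EG3.PNMStmt := Pool.EG3.t_pnm x_lsh x_lin y_hgm y_pem
  have y_hzm : Pool.EG3.HZMStmt := Pool.EG3.t_hzm y_hsm x_fin
  have y_moc : Pool.EG3.MOCStmt := Pool.EG3.t_moc y_mom
  have y_qhf : Pool.EG3.QHFStmt := Pool.EG3.t_qhf y_hsm y_moc
  have y_rt3 : Pool.EG3.RT3Stmt := Pool.EG3.t_rt3 y_hzm y_pnm y_pem x_rlf y_hgm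
  have y_rzc : Pool.EG3.RZCStmt := Pool.EG3.t_rzc Pool.EG3.clt_all y_sge y_sup
  have y_snc : Pool.EG3.SNCStmt := Pool.EG3.t_snc
  have y_sna : Pool.EG3.SNAStmt := Pool.EG3.t_sna
  have y_hfs : Pool.EGC.HFSStmt := Pool.EGC.t_hfs x_col x_hga
  have y_stp : Pool.EG3.STPStmt := Pool.EG3.t_stp y_rzc y_snc y_sna y_hfs x_mon y_sge
  have y_tr1 : Pool.EGC.TR1Stmt := Pool.EGC.t_tr1 x_lsh
  have y_trm : Pool.EG3.TRMStmt := Pool.EG3.t_trm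
  have y_tr3 : Pool.EGC.TR3Stmt := Pool.EGC.t_tr3
  have y_bas : Pool.EG3.BASStmt := Pool.EG3.t_bas y_tr1 y_trm y_tr3 y_fc3 y_qhf y_sge y_sup
    Pool.EG3.gro_all y_rt3 x_mon
  have y_ind : Pool.EG3.INDStmt := Pool.EG3.t_ind y_bas y_stp y_hfs y_pnm x_rlf y_pem y_hgm
  have w_cmp : CMPGStmt := t_cmpg y_sge y_sup Pool.EG3.t_sl1 Pool.EG3.t_sl2 Pool.EG3.t_sl3
    Pool.EG3.t_sl4 y_cmw
  have w_cls : CLSGStmt := t_clsg y_lxo y_top w_cmp t_ex1g t_ex2g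
  have w_clt : CLTGStmt := t_cltg y_cl3 w_cls
  exact w_clt

/-- One more form of large degree. -/
theorem indl_all : ∀ (a : ℕ → ℕ) (r : ℕ), Monotone a → 2 ≤ a 0 → 3 ≤ r → so a r ≤ a r →
    EGr a r → EGr a (r + 1) := by
  have x_fin : FINStmt := t_FIN
  have x_hsb : HSBStmt := t_hsb
  have x_hga : HGAStmt := t_HGA
  have x_mon : MONStmt := t_MON
  have x_col : COLStmt := t_col x_fin
  have x_lsh : LSHStmt := t_lsh
  have x_lin : LINStmt := t_lin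
  have x_rlf : RLFStmt := t_rlf
  have y_lxo : Pool.EGC.LXOStmt := Pool.EGC.t_lxo
  have y_mom : Pool.EG3.MOMStmt := Pool.EG3.t_mom
  have y_sge : Pool.EG3.SGEStmt := Pool.EG3.t_sge
  have y_sup : Pool.EG3.SUPStmt := Pool.EG3.t_sup
  have y_top : Pool.EG3.TOPStmt := Pool.EG3.t_top y_lxo
  have y_cmw : Pool.EG3.CMWStmt := Pool.EG3.t_cmw y_mom y_lxo y_top
  have y_mnm : Pool.EG3.MNMStmt := Pool.EG3.t_mnm Pool.EGC.t_mni y_mom
  have y_fc3 : Pool.EG3.FC3Stmt := Pool.EG3.t_fc3 y_mom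
  have y_cl3 : Pool.EG3.CL3Stmt := Pool.EG3.t_cl3 y_mom Pool.EG3.gro_all Pool.EG3.t_t3m y_mnm y_fc3
  have y_hgm : Pool.EG3.HGMStmt := Pool.EG3.t_hgm
  have y_hsm : Pool.EG3.HSMStmt := Pool.EG3.t_hsm x_col x_hsb y_hgm
  have y_pem : Pool.EG3.PEMStmt := Pool.EG3.t_pem
  have y_pnm : Pool.EG3.PNMStmt := Pool.EG3.t_pnm x_lsh x_lin y_hgm y_pem
  have y_hzm : Pool.EG3.HZMStmt := Pool.EG3.t_hzm y_hsm x_fin
  have y_moc : Pool.EG3.MOCStmt := Pool.EG3.t_moc y_mom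
  have y_qhf : Pool.EG3.QHFStmt := Pool.EG3.t_qhf y_hsm y_moc
  have y_rt3 : Pool.EG3.RT3Stmt := Pool.EG3.t_rt3 y_hzm y_pnm y_pem x_rlf y_hgm
  have y_rzc : Pool.EG3.RZCStmt := Pool.EG3.t_rzc Pool.EG3.clt_all y_sge y_sup
  have y_snc : Pool.EG3.SNCStmt := Pool.EG3.t_snc
  have y_sna : Pool.EG3.SNAStmt := Pool.EG3.t_sna
  have y_hfs : Pool.EGC.HFSStmt := Pool.EGC.t_hfs x_col x_hga
  have y_stp : Pool.EG3.STPStmt := Pool.EG3.t_stp y_rzc y_snc y_sna y_hfs x_mon y_sge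
  have y_tr1 : Pool.EGC.TR1Stmt := Pool.EGC.t_tr1 x_lsh
  have y_trm : Pool.EG3.TRMStmt := Pool.EG3.t_trm
  have y_tr3 : Pool.EGC.TR3Stmt := Pool.EGC.t_tr3
  have y_bas : Pool.EG3.BASStmt := Pool.EG3.t_bas y_tr1 y_trm y_tr3 y_fc3 y_qhf y_sge y_sup
    Pool.EG3.gro_all y_rt3 x_mon
  have y_ind : Pool.EG3.INDStmt := Pool.EG3.t_ind y_bas y_stp y_hfs y_pnm x_rlf y_pem y_hgm
  have w_cmp : CMPGStmt := t_cmpg y_sge y_sup Pool.EG3.t_sl1 Pool.EG3.t_sl2 Pool.EG3.t_sl3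
    Pool.EG3.t_sl4 y_cmw
  have w_cls : CLSGStmt := t_clsg y_lxo y_top w_cmp t_ex1g t_ex2g
  have w_clt : CLTGStmt := t_cltg y_cl3 w_cls
  have w_rzc : RZCGStmt := t_rzcg w_clt y_sge y_sup
  have w_stp : STPGStmt := t_stpg w_rzc y_snc y_hfs x_mon y_sge
  have w_moc : MOCGStmt := t_mocg y_mom
  have w_qhf : QHFGStmt := t_qhfg y_hsm w_moc
  have w_gor : GORGStmt := t_gorg y_pnm x_rlf y_pem y_hgm
  have w_rev : REVGStmt := t_revg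
  have w_lnk : LNKGStmt := t_lnkg w_gor x_fin y_hgm
  have w_bas : BASGStmt := t_basg y_mom y_sge w_qhf w_lnk w_rev x_mon
  exact t_indl (t_basl w_bas (t_base y_mom y_sge y_sup y_lxo w_qhf w_lnk w_rev
    x_mon w_gor y_pnm x_rlf y_pem y_hgm)) w_stp y_hfs y_pnm x_rlf y_pem y_hgm

/-- The theorem for degrees which grow fast from the fourth one on, algebraically closed
fields. -/
theorem egrl_all : EGRLStmt := by
  have x_fin : FINStmt := t_FIN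
  have x_hsb : HSBStmt := t_hsb
  have x_hga : HGAStmt := t_HGA
  have x_mon : MONStmt := t_MON
  have x_col : COLStmt := t_col x_fin
  have x_lsh : LSHStmt := t_lsh
  have x_lin : LINStmt := t_lin
  have x_rlf : RLFStmt := t_rlf
  have y_lxo : Pool.EGC.LXOStmt := Pool.EGC.t_lxo
  have y_mom : Pool.EG3.MOMStmt := Pool.EG3.t_mom
  have y_sge : Pool.EG3.SGEStmt := Pool.EG3.t_sge
  have y_sup : Pool.EG3.SUPStmt := Pool.EG3.t_sup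
  have y_top : Pool.EG3.TOPStmt := Pool.EG3.t_top y_lxo
  have y_cmw : Pool.EG3.CMWStmt := Pool.EG3.t_cmw y_mom y_lxo y_top
  have y_mnm : Pool.EG3.MNMStmt := Pool.EG3.t_mnm Pool.EGC.t_mni y_mom
  have y_fc3 : Pool.EG3.FC3Stmt := Pool.EG3.t_fc3 y_mom
  have y_cl3 : Pool.EG3.CL3Stmt := Pool.EG3.t_cl3 y_mom Pool.EG3.gro_all Pool.EG3.t_t3m y_mnm y_fc3
  have y_hgm : Pool.EG3.HGMStmt := Pool.EG3.t_hgm
  have y_hsm : Pool.EG3.HSMStmt := Pool.EG3.t_hsm x_col x_hsb y_hgm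
  have y_pem : Pool.EG3.PEMStmt := Pool.EG3.t_pem
  have y_pnm : Pool.EG3.PNMStmt := Pool.EG3.t_pnm x_lsh x_lin y_hgm y_pem
  have y_hzm : Pool.EG3.HZMStmt := Pool.EG3.t_hzm y_hsm x_fin
  have y_moc : Pool.EG3.MOCStmt := Pool.EG3.t_moc y_mom
  have y_qhf : Pool.EG3.QHFStmt := Pool.EG3.t_qhf y_hsm y_moc
  have y_rt3 : Pool.EG3.RT3Stmt := Pool.EG3.t_rt3 y_hzm y_pnm y_pem x_rlf y_hgm
  have y_rzc : Pool.EG3.RZCStmt := Pool.EG3.t_rzc Pool.EG3.clt_all y_sge y_sup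
  have y_snc : Pool.EG3.SNCStmt := Pool.EG3.t_snc
  have y_sna : Pool.EG3.SNAStmt := Pool.EG3.t_sna
  have y_hfs : Pool.EGC.HFSStmt := Pool.EGC.t_hfs x_col x_hga
  have y_stp : Pool.EG3.STPStmt := Pool.EG3.t_stp y_rzc y_snc y_sna y_hfs x_mon y_sge
  have y_tr1 : Pool.EGC.TR1Stmt := Pool.EGC.t_tr1 x_lsh
  have y_trm : Pool.EG3.TRMStmt := Pool.EG3.t_trm
  have y_tr3 : Pool.EGC.TR3Stmt := Pool.EGC.t_tr3
  have y_bas : Pool.EG3.BASStmt := Pool.EG3.t_bas y_tr1 y_trm y_tr3 y_fc3 y_qhf y_sge y_sup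
    Pool.EG3.gro_all y_rt3 x_mon
  have y_ind : Pool.EG3.INDStmt := Pool.EG3.t_ind y_bas y_stp y_hfs y_pnm x_rlf y_pem y_hgm
  exact t_egrl y_ind indl_all

end Pool.EG4
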