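import Pool.Agent.H45.EG4.BASG
import Pool.Agent.H45.EG3.LEX3

/-!
# EG4: the lexicographic ideal
-/

set_option autoImplicit false

namespace Pool.EG4

open MvPolynomial Pool.EGH
open Pool.EG3 (Cp Mo up Sg cp rk wt Cm CLm Rz MC t_mom)
open Pool.EG3.LEX86 (lexS hfm hf_inj)
open Pool.EG3.L3 (upS upS_up upS_cap upS_lx)
open Pool.EGC (lx t_mni t_lxm t_lxo)

/-- The exponents with a large entry. -/
def vioG (a : ℕ → ℕ) (r n : ℕ) : Set (Fin n →₀ ℕ) := {s | ¬ Cp (ca a r n) (fun i => s i)}

theorem vioG_up {a : ℕ → ℕ} {r n : ℕ} {s t : Fin n →₀ ℕ} (hs : s ∈ vioG a r n) (hst : s ≤ t) :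
    t ∈ vioG a r n := by
  intro h
  apply hs
  intro i
  refine lt_of_le_of_lt ?_ (h i)
  exact_mod_cast hst i

/-- The sum of the ideals is a monomial ideal. -/
theorem lex_supG {K : Type} [Field K] {n r : ℕ} (hr : r ≤ n) (a : ℕ → ℕ)
    (S : Set (Fin n →₀ ℕ)) :
    Ideal.span (Set.range fun i : Fin r => (X (Fin.castLE hr i) : PR K n) ^ a i) ⊔
      Ideal.span ((fun s => monomial s (1 : K)) '' S) =
    Ideal.span ((fun s => monomial s (1 : K)) '' (vioG a r n ∪ S)) := by
  classical
  have hcp : ∀ i : Fin r, ca a r n (Fin.castLE hr i) = a i := by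
    intro i
    unfold ca
    rw [if_pos (by rw [Fin.val_castLE]; exact i.isLt), Fin.val_castLE]
  apply le_antisymm
  · refine sup_le ?_ (Ideal.span_mono (Set.image_mono Set.subset_union_right))
    rw [Ideal.span_le]
    rintro _ ⟨i, rfl⟩
    refine Ideal.subset_span ⟨Finsupp.single (Fin.castLE hr i) (a i), Or.inl ?_, ?_⟩
    · intro h
      have h1 := h (Fin.castLE hr i)
      rw [hcp] at h1
      simp at h1
    · show monomial (Finsupp.single (Fin.castLE hr i) (a i)) (1 : K) =
        (X (Fin.castLE hr i) : PR K n) ^ a i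
      rw [X_pow_eq_monomial]
  · rw [Ideal.span_le]
    rintro _ ⟨s, hs | hs, rfl⟩
    · have hs' : ¬ Cp (ca a r n) (fun i => s i) := hs
      unfold Cp at hs'
      push Not at hs'
      obtain ⟨i, hi⟩ := hs'
      have hi3 : (i : ℕ) < r := by
        by_contra hcon
        have : ca a r n i = ⊤ := by
          unfold ca
          rw [if_neg hcon]
        rw [this, top_le_iff] at hi
        exact ENat.natCast_ne_top _ hi
      have e1 : (Fin.castLE hr ⟨i, hi3⟩ : Fin n) = i := rfl
      have h2 : a (i : ℕ) ≤ s i := by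
        have := hcp ⟨i, hi3⟩
        rw [e1] at this
        rw [this] at hi
        exact_mod_cast hi
      refine Ideal.mem_sup_left ?_
      have h3 : monomial s (1 : K) = monomial (s - Finsupp.single i (a (i : ℕ))) (1 : K) *
          (X (Fin.castLE hr ⟨i, hi3⟩) : PR K n) ^ a (i : ℕ) := by
        rw [X_pow_eq_monomial, monomial_mul, one_mul]
        congr 1
        rw [e1, tsub_add_cancel_of_le]
        exact Finsupp.single_le_iff.2 h2
      show monomial s (1 : K) ∈ _
      rw [h3]
      exact Ideal.mul_mem_left _ _ (Ideal.subset_span ⟨⟨i, hi3⟩, rfl⟩)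
    · exact Ideal.mem_sup_right (Ideal.subset_span ⟨s, hs, rfl⟩)

/-- The conclusion of the theorem. -/
theorem lexG {K : Type} [Field K] {n r : ℕ} (hr : r ≤ n) (a : ℕ → ℕ) (I : Ideal (PR K n))
    (hRz : Rz I (ca a r n)) :
    ∃ J : Ideal (MvPolynomial (Fin n) K),
      (∀ p ∈ J, ∀ s ∈ p.support, MvPolynomial.monomial s (1 : K) ∈ J) ∧
      (∀ s t : Fin n →₀ ℕ, s.degree = t.degree →
          MvPolynomial.monomial s (1 : K) ∈ J →
          (MonomialOrder.lex : MonomialOrder (Fin n)).toSyn s ≤
            (MonomialOrder.lex : MonomialOrder (Fin n)).toSyn t →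
          MvPolynomial.monomial t (1 : K) ∈ J) ∧
      ∀ d : ℕ,
        Module.finrank K
          ↥(MvPolynomial.homogeneousSubmodule (Fin n) K d ⊓ Submodule.restrictScalars K I) =
        Module.finrank K
          ↥(MvPolynomial.homogeneousSubmodule (Fin n) K d ⊓
              Submodule.restrictScalars K
                (Ideal.span (Set.range fun i : Fin r => MvPolynomial.X (Fin.castLE hr i) ^ a i)
                  ⊔ J)) := by
  classical
  obtain ⟨A, h1, h2, h3⟩ := hRz
  have hup : ∀ s ∈ upS A, ∀ t, s ≤ t → t ∈ upS A := fun s hs t hst => upS_up hs hst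
  have hmem : ∀ s : Fin n →₀ ℕ, monomial s (1 : K) ∈
      Ideal.span ((fun s => monomial s (1 : K)) '' upS A) ↔ s ∈ upS A := by
    intro s
    refine ⟨fun h => ((t_mni K n 0 (upS A) hup).1 _).1 h s ?_,
      fun h => Ideal.subset_span ⟨s, h, rfl⟩⟩
    rw [mem_support_iff, coeff_monomial, if_pos rfl]
    exact one_ne_zero
  refine ⟨Ideal.span ((fun s => monomial s (1 : K)) '' upS A), fun p hp s hs =>
    (hmem s).2 (((t_mni K n 0 (upS A) hup).1 p).1 hp s hs), fun s t hst hs hle => ?_,
    fun d => ?_⟩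
  · rw [hmem] at hs ⊢
    refine upS_lx hs hst.symm ?_
    rcases (t_lxm n s t).1 hle with h4 | h4
    · exact Or.inl h4.symm
    · exact Or.inr h4
  · rw [lex_supG hr]
    have hup' : ∀ s ∈ vioG a r n ∪ upS A, ∀ t, s ≤ t → t ∈ vioG a r n ∪ upS A := by
      rintro s (hs | hs) t hst
      · exact Or.inl (vioG_up hs hst)
      · exact Or.inr (hup s hs t hst)
    have key := hfm t_mni (K := K) (ca a r n) d _ hup' (A d) (h1 d).1 (by
      intro s hs
      constructor
      · rintro (h | h)
        · exact Or.inl h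
        · by_cases h5 : Cp (ca a r n) (fun i => s i)
          · right
            rw [← hs]
            exact upS_cap h1 h2 h h5
          · exact Or.inl h5
      · rintro (h | h)
        · exact Or.inl h
        · exact Or.inr ⟨s, ⟨_, by rw [hs]; exact h, Or.inl rfl⟩, le_rfl⟩)
    have h6 := h3 d
    exact (hf_inj t_FIN _ _ d (by omega)).symm

end Pool.EG4
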