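import Pool.Agent.H45.EG4.STA

/-!
# EG4: the middle degree, the theorem
-/

set_option autoImplicit false

namespace Pool.EG4

open MvPolynomial Pool.EGH
open Pool.EG3 (mul_mem' fm_succ hf_eq_zero_iff t_ln0)

variable {K : Type} [Field K] {N : ℕ}

/-- Peeling. -/
theorem npl {P : Ideal (PR K N)} {t : ℕ} (hD : DP P t) {J : Ideal (PR K N)} (hJ : Hg J)
    (hPJ : P ≤ J) {h : ℕ} (h1 : hf J t = h + 1) (h2 : hf J (t + 1) = h + 1) {u : PR K N}
    (hu : u ∈ fm K N t) (huJ : u ∉ J)
    (hz : ∃ z ∈ fm K N 1, ∀ y ∈ fm K N 1, ∃ c : K, y * u - C c * (z * u) ∈ J) :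
    ∃ J' : Ideal (PR K N), Hg J' ∧ J ≤ J' ∧ u ∈ J' ∧ hf J' t = h ∧ hf J' (t + 1) = h := by
  obtain ⟨z, hz, hz2⟩ := hz
  refine ⟨J ⊔ Ideal.span {u}, HGA.hg_sup hJ (HGA.hg_span hu), le_sup_left,
    Ideal.mem_sup_right (Ideal.mem_span_singleton_self u), ?_⟩
  have hJ' : Hg (J ⊔ Ideal.span {u}) := HGA.hg_sup hJ (HGA.hg_span hu)
  have h3 := ((t_col t_FIN) K N t J u hJ hu).1
  have h30 := h3 0
  have h31 := h3 1
  rw [zero_add] at h30
  rw [add_comm 1 t] at h31
  have h4 := bnd hD hJ' (hPJ.trans le_sup_left) (Ideal.mem_sup_right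
    (Ideal.mem_span_singleton_self u)) hu (fun h => huJ (hPJ h))
  have h5 : hf (clI J u) 0 ≠ 0 := by
    intro h
    have h6 := (hf_eq_zero_iff t_FIN _ _).1 h 1 (isHomogeneous_one _ _)
    change u * 1 ∈ J at h6
    rw [mul_one] at h6
    exact huJ h6
  have h6 : hf (clI J u) 1 ≤ 1 := by
    refine hf_le_one hz fun y hy => ?_
    obtain ⟨c, hc⟩ := hz2 y hy
    refine ⟨c, ?_⟩
    change u * (y - C c * z) ∈ J
    have : u * (y - C c * z) = y * u - C c * (z * u) := by ring
    rw [this]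
    exact hc
  omega

/-- The functional. -/
theorem rho {P S : Ideal (PR K N)} {d : ℕ} (hSP : S ≤ P) (h : hf P d = 1) :
    ∃ ρ : ↥(gp S d) →ₗ[K] K, ∀ x : ↥(fm K N d), ρ (cg S d x) = 0 ↔ (x : PR K N) ∈ P := by
  have := gp_fin P d
  have h1 : Module.finrank K ↥(gp P d) = Module.finrank K K := by
    rw [GPDh.dim, h, Module.finrank_self]
  obtain ⟨e⟩ := FiniteDimensional.nonempty_linearEquiv_of_finrank_eq h1
  let φ : ↥(gp S d) →ₗ[K] ↥(gp P d) :=
    LinearMap.restrict (Ideal.Quotient.factorₐ K hSP).toLinearMap (by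
      rintro x ⟨x', hx', rfl⟩
      exact ⟨x', hx', rfl⟩)
  have hφ : ∀ x : ↥(fm K N d), φ (cg S d x) = cg P d x := fun x => rfl
  refine ⟨e.toLinearMap ∘ₗ φ, fun x => ?_⟩
  rw [LinearMap.comp_apply, hφ]
  rw [← cg_eq]
  exact e.map_eq_zero_iff

/-- The middle degree. -/
theorem mid [IsAlgClosed K] {P : Ideal (PR K N)} {t : ℕ} (hD : DP P t) {q : PR K N}
    (hq : q ∈ fm K N (t + 1)) (hqr : Rg P q) {M : ℕ}
    (hM : ∀ f ∈ fm K N M, f ∈ P ⊔ Ideal.span {q}) : ∀ (h : ℕ) (J : Ideal (PR K N)), Hg J →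
    P ≤ J → q ∈ J → hf J t = h → hf J (t + 1) = h → (∃ u ∈ J, u ∈ fm K N t ∧ u ∉ P) →
    h = 0 := by
  have hinf : Infinite K := IsAlgClosed.instInfinite
  intro h
  induction h with
  | zero => intro _ _ _ _ _ _ _; rfl
  | succ h ih =>
    intro J hJ hPJ hqJ h1 h2 hex
    obtain ⟨u0, hu0, hu0t, hu0P⟩ := hex
    exfalso
    -- no element is killed by a hyperplane
    have NP : ∀ u ∈ fm K N t,
        (∃ z ∈ fm K N 1, ∀ y ∈ fm K N 1, ∃ c : K, y * u - C c * (z * u) ∈ J) → u ∈ J := by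
      intro u hu hz
      by_contra huJ
      obtain ⟨J', hJ', hJJ', -, h3, h4⟩ := npl hD hJ hPJ h1 h2 hu huJ hz
      have h5 := ih J' hJ' (hPJ.trans hJJ') (hJJ' hqJ) h3 h4 ⟨u0, hJJ' hu0, hu0t, hu0P⟩
      subst h5
      exact pt1 hD hq hqr hPJ hqJ h1 h2
    have heq : hf J t = hf J (t + 1) := by rw [h1, h2]
    obtain ⟨l0, hl0, hr0⟩ := hD.ex
    set S := pj P l0 J with hS
    have hS1 : hf S (t + 1) = h + 2 := by
      rw [hS, hf_pj hD.hg hJ hPJ hl0 hr0 t, hD.h1 l0 hl0 hr0, h1]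
      omega
    have hS2 : hf S (t + 1 + 1) = h + 1 := by
      rw [hS, hf_pj hD.hg hJ hPJ hl0 hr0 (t + 1), hD.h2 l0 hl0 hr0, h2]
      omega
    have hSJ : S ≤ J := pj_le hPJ
    -- the kernel vector
    obtain ⟨w0, hw0, hw0t, hw0S⟩ : ∃ w ∈ J, w ∈ fm K N (t + 1) ∧ w ∉ S := by
      by_contra hcon
      push Not at hcon
      have := (mond hcon).1
      omega
    have hcod := cod hSJ (d := t + 1) (by omega) hw0 hw0t hw0S
    obtain ⟨y1, hy1, hy1w⟩ := vmx hD hJ hPJ heq (by omega) hq hqJ hM hl0 hr0 hw0 hw0t hw0S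
    obtain ⟨s1, hs1⟩ : ∃ s, s ∉ {s : K | ¬ Rg P (l0 + C s * y1)} ∪ {0} :=
      ((nzc hD hl0 hy1 hr0).union (Set.finite_singleton 0)).infinite_compl.nonempty
    rw [Set.mem_union, not_or] at hs1
    obtain ⟨hs1, hs10⟩ := hs1
    rw [Set.mem_singleton_iff] at hs10
    have hr1 : Rg P (l0 + C s1 * y1) := by
      by_contra hcon
      exact hs1 hcon
    set l1 := l0 + C s1 * y1 with hl1def
    have hl1 : l1 ∈ fm K N 1 := lin_comb hl0 hy1 s1
    have hl1w : l1 * w0 ∉ S := by
      intro hmem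
      apply hy1w
      have h3 : C s1 * (y1 * w0) ∈ S := by
        have : C s1 * (y1 * w0) = l1 * w0 - l0 * w0 := by rw [hl1def]; ring
        rw [this]
        exact sub_mem hmem (mul_pj hw0)
      have h4 : y1 * w0 = C s1⁻¹ * (C s1 * (y1 * w0)) := by
        rw [← mul_assoc, ← C_mul, inv_mul_cancel₀ hs10, C_1, one_mul]
      rw [h4]
      exact Ideal.mul_mem_left _ _ h3
    -- from `S` to `J`
    have key : ∀ u : PR K N, l0 * u ∈ S → u ∈ J := by
      intro u hu
      obtain ⟨p, hp, j, hj, h3⟩ := mem_pj.1 hu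
      have h4 : u - j ∈ P := hr0 _ (by
        have : l0 * (u - j) = p := by linear_combination h3
        rw [this]
        exact hp)
      have : u = (u - j) + j := by ring
      rw [this]
      exact add_mem (hPJ h4) hj
    obtain ⟨ρ, hρ⟩ := rho (S := S) (P := P ⊔ Ideal.span {l0}) (d := t + 1)
      (sup_le_sup_left Ideal.mul_le_left _) (hD.h1 l0 hl0 hr0)
    have := gp_fin S (t + 1)
    have := gp_fin S (t + 1 + 1)
    obtain ⟨ψ, hψ0, hψρ, hψ⟩ := pen (mp S (t + 1) ⟨l0, hl0⟩) (mp S (t + 1) ⟨l1, hl1⟩)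
      (fun y : ↥(fm K N 1) => mp S (t + 1) y) ρ
      (by rw [GPDh.dim, GPDh.dim, hS1, hS2]; omega)
      (by
        intro ψ h3 h4
        obtain ⟨x, rfl⟩ := cg_surj ψ
        rw [mp_cg, cg_eq] at h3 h4
        rw [cg_eq]
        have h5 : (x : PR K N) ∈ J := key _ h3
        obtain ⟨c, hc⟩ := hcod _ h5 x.2
        by_cases hc0 : c = 0
        · rw [hc0, C_0, zero_mul, sub_zero] at hc
          exact hc
        · exfalso
          apply hl1w
          have h6 : C c * (l1 * w0) ∈ S := by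
            have : C c * (l1 * w0) = l1 * (x : PR K N) - l1 * ((x : PR K N) - C c * w0) := by ring
            rw [this]
            exact sub_mem h4 (Ideal.mul_mem_left _ _ hc)
          have h7 : l1 * w0 = C c⁻¹ * (C c * (l1 * w0)) := by
            rw [← mul_assoc, ← C_mul, inv_mul_cancel₀ hc0, C_1, one_mul]
          rw [h7]
          exact Ideal.mul_mem_left _ _ h6)
      (by
        intro ψ h3 h4
        obtain ⟨x, rfl⟩ := cg_surj ψ
        rw [mp_cg, cg_eq] at h3
        rw [hρ] at h4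
        rw [cg_eq]
        change l1 * (x : PR K N) ∈ S at h3
        obtain ⟨p, hp, u, hu, h5⟩ := sp_dec hD.hg hl0 x.2 h4
        have h6 : l0 * (l1 * u) ∈ S := by
          have : l0 * (l1 * u) = l1 * (x : PR K N) - l1 * p := by rw [h5]; ring
          rw [this]
          exact sub_mem h3 (Ideal.mul_mem_left _ _ (le_pj hp))
        have h7 := key _ h6
        have h8 : u ∈ J := by
          apply NP u hu
          obtain ⟨z, hz, h9⟩ := rk hD hJ hPJ heq hu0 hu0t hu0P hl1 hr1 (l1 * u) h7 (by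
            rw [add_comm]
            exact mul_mem' hl1 hu)
          refine ⟨z, hz, fun y hy => ?_⟩
          obtain ⟨c, hc⟩ := h9 y hy
          refine ⟨c, ?_⟩
          obtain ⟨p', hp', j, hj, h10⟩ := mem_pj.1 hc
          have h11 : y * u - C c * (z * u) - j ∈ P := hr1 _ (by
            have : l1 * (y * u - C c * (z * u) - j) = p' := by linear_combination h10
            rw [this]
            exact hp')
          have : y * u - C c * (z * u) = (y * u - C c * (z * u) - j) + j := by ring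
          rw [this]
          exact add_mem (hPJ h11) hj
        rw [h5]
        exact add_mem (le_pj hp) (mul_pj h8))
      (by
        refine Set.Finite.subset (nzc hD hl0 hl1 hr0) ?_
        intro s hs hgood
        apply hs
        intro ψ h3
        obtain ⟨x, rfl⟩ := cg_surj ψ
        rw [mp_cg, mp_cg, ← cg_smul, ← cg_add, cg_eq] at h3
        change l0 * (x : PR K N) + s • (l1 * (x : PR K N)) ∈ S at h3
        rw [smul_eq_C_mul] at h3
        have hlm : l0 + C s * l1 ∈ fm K N 1 := lin_comb hl0 hl1 s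
        set l := l0 + C s * l1 with hl
        have h4 : l * (x : PR K N) ∈ S := by
          have : l * (x : PR K N) = l0 * (x : PR K N) + C s * (l1 * (x : PR K N)) := by rw [hl]; ring
          rw [this]
          exact h3
        obtain ⟨p, hp, w, hw, hwt, h5⟩ := pj_dec hD.hg hJ hl0 (d := t + 1) (by
          rw [add_comm (t + 1) 1]
          exact mul_mem' hlm x.2) h4
        obtain ⟨z, hz, h9⟩ := rk hD hJ hPJ heq hu0 hu0t hu0P hlm hgood w hw hwt
        refine ro_of ⟨z, hz⟩ fun y => ?_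
        obtain ⟨c, hc⟩ := h9 y y.2
        refine ⟨c, ?_⟩
        obtain ⟨p', hp', j, hj, h10⟩ := mem_pj.1 hc
        change mp S (t + 1) y (cg S (t + 1) x) = c • mp S (t + 1) ⟨z, hz⟩ (cg S (t + 1) x)
        rw [mp_cg, mp_cg, ← sub_eq_zero, ← cg_smul]
        apply Subtype.ext
        change Ideal.Quotient.mk S ((y : PR K N) * (x : PR K N)) - Ideal.Quotient.mk S (c • (z * (x : PR K N))) = 0
        rw [← map_sub, Ideal.Quotient.eq_zero_iff_mem, smul_eq_C_mul]
        have h11 : (y : PR K N) * (x : PR K N) - C c * (z * (x : PR K N)) - l0 * j ∈ P := hgood _ (by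
          have : l * ((y : PR K N) * (x : PR K N) - C c * (z * (x : PR K N)) - l0 * j) =
              (y : PR K N) * p - C c * (z * p) + l0 * p' := by
            linear_combination ((y : PR K N) - C c * z) * h5 + l0 * h10
          rw [this]
          exact add_mem (sub_mem (Ideal.mul_mem_left _ _ hp)
            (Ideal.mul_mem_left _ _ (Ideal.mul_mem_left _ _ hp))) (Ideal.mul_mem_left _ _ hp'))
        have : (y : PR K N) * (x : PR K N) - C c * (z * (x : PR K N)) =
            ((y : PR K N) * (x : PR K N) - C c * (z * (x : PR K N)) - l0 * j) + l0 * j := by ring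
        rw [this]
        exact add_mem (le_pj h11) (mul_pj hj))
    obtain ⟨x, rfl⟩ := cg_surj ψ
    rw [Ne, cg_eq] at hψ0
    rw [hρ] at hψρ
    obtain ⟨p, hp, u, hu, h5⟩ := sp_dec hD.hg hl0 x.2 hψρ
    have : Nonempty ↥(fm K N 1) := ⟨0⟩
    obtain ⟨z, hz⟩ := ro_to hψ
    apply hψ0
    have h8 : u ∈ J := by
      refine NP u hu ⟨z, z.2, fun y hy => ?_⟩
      obtain ⟨c, hc⟩ := hz ⟨y, hy⟩
      refine ⟨c, key _ ?_⟩
      rw [mp_cg, mp_cg, ← cg_smul, ← sub_eq_zero] at hc
      have hc2 := congrArg Subtype.val hc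
      change Ideal.Quotient.mk S (y * (x : PR K N)) -
        Ideal.Quotient.mk S (c • ((z : PR K N) * (x : PR K N))) = 0 at hc2
      rw [← map_sub, Ideal.Quotient.eq_zero_iff_mem, smul_eq_C_mul] at hc2
      have : l0 * (y * u - C c * ((z : PR K N) * u)) =
          (y * (x : PR K N) - C c * ((z : PR K N) * (x : PR K N))) -
            (y * p - C c * ((z : PR K N) * p)) := by
        rw [h5]
        ring
      rw [this]
      exact sub_mem hc2 (sub_mem (Ideal.mul_mem_left _ _ (le_pj hp))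
        (Ideal.mul_mem_left _ _ (Ideal.mul_mem_left _ _ (le_pj hp))))
    rw [h5]
    exact add_mem (le_pj hp) (mul_pj h8)

end Pool.EG4
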