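import Pool.Agent.H45.EG4.LEXG
import Pool.Agent.H45.EG4.All
import Pool.Agent.H45.EG4.Main

/-!
# EG4: the theorem, every degree from the fourth one on is at least the socle degree of the
preceding ones
-/

set_option autoImplicit false

namespace Pool.EG4

open MvPolynomial Pool.EGH
open Pool.EG3 (Cp Mo up Sg cp rk wt Cm CLm Rz MC t_bam t_rgm)

/-- **Theorem.** The statement of Eisenbud, Green and Harris for regular sequences whose degrees
grow fast from the fourth one on. -/
theorem fastl (K : Type) [Field K] (n r : ℕ) (h3 : 3 ≤ r) (hr : r ≤ n)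
    (I : Ideal (MvPolynomial (Fin n) K)) (f : Fin r → MvPolynomial (Fin n) K) (a : Fin r → ℕ)
    (hI : ∀ p ∈ I, ∀ d : ℕ, MvPolynomial.homogeneousComponent d p ∈ I)
    (hmono : Monotone a) (ha2 : ∀ i, 2 ≤ a i)
    (hfast : ∀ j : Fin r, 3 ≤ (j : ℕ) → ∑ i ∈ Finset.Iio j, (a i - 1) ≤ a j)
    (hfa : ∀ i, (f i).IsHomogeneous (a i)) (hfI : ∀ i, f i ∈ I)
    (hreg : RingTheory.Sequence.IsRegular (MvPolynomial (Fin n) K) (List.ofFn f)) :
    ∃ J : Ideal (MvPolynomial (Fin n) K),
      (∀ p ∈ J, ∀ s ∈ p.support, MvPolynomial.monomial s (1 : K) ∈ J) ∧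
      (∀ s t : Fin n →₀ ℕ, s.degree = t.degree →
          MvPolynomial.monomial s (1 : K) ∈ J →
          (MonomialOrder.lex : MonomialOrder (Fin n)).toSyn s ≤
            (MonomialOrder.lex : MonomialOrder (Fin n)).toSyn t →
          MvPolynomial.monomial t (1 : K) ∈ J) ∧
      ∀ d : ℕ,
        Module.finrank K
          ↥(MvPolynomial.homogeneousSubmodule (Fin n) K d ⊓ Submodule.restrictScalars K I) =
        Module.finrank K
          ↥(MvPolynomial.homogeneousSubmodule (Fin n) K d ⊓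
              Submodule.restrictScalars K
                (Ideal.span (Set.range fun i : Fin r => MvPolynomial.X (Fin.castLE hr i) ^ a i)
                  ⊔ J)) := by
  -- the degrees as a sequence
  obtain ⟨a', ha', hmono'⟩ : ∃ a' : ℕ → ℕ, (∀ i : Fin r, a' i = a i) ∧ Monotone a' := by
    refine ⟨fun i => a ⟨min i (r - 1), by omega⟩, fun i => ?_, fun i j hij => ?_⟩
    · have h1 : min (i : ℕ) (r - 1) = i := by have := i.isLt; omega
      exact congrArg a (Fin.ext h1)
    · exact hmono (Fin.le_def.2 (by simp only; omega))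
  have hfun : a = fun i : Fin r => a' i := funext fun i => (ha' i).symm
  subst hfun
  have hlist : (List.ofFn fun i : Fin r => a' i).reverse = dl a' r := ofFn_reverse a' r
  have hsum : ∀ j : ℕ, ∀ hj : j < r,
      so a' j = ∑ i ∈ Finset.Iio (⟨j, hj⟩ : Fin r), (a' i - 1) := by
    intro j hj
    unfold so
    refine Finset.sum_bij' (fun i hi => (⟨i, lt_trans (Finset.mem_range.1 hi) hj⟩ : Fin r))
      (fun i _ => (i : ℕ)) ?_ ?_ ?_ ?_ ?_
    · intro i hi
      rw [Finset.mem_Iio]
      exact Fin.lt_def.2 (Finset.mem_range.1 hi)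
    · intro i hi
      rw [Finset.mem_range]
      rw [Finset.mem_Iio] at hi
      exact Fin.lt_def.1 hi
    · intro i _
      rfl
    · intro i _
      rfl
    · intro i hi
      rfl
  have hF : List.Forall₂ (fun (g : MvPolynomial (Fin n) K) (d : ℕ) => g.IsHomogeneous d ∧ g ∈ I)
      (List.ofFn f) (List.ofFn fun i : Fin r => a' i) := by
    rw [List.forall₂_iff_get]
    refine ⟨by simp, fun i h1 h2 => ?_⟩
    simp only [List.get_eq_getElem, List.getElem_ofFn]
    exact ⟨hfa _, hfI _⟩
  obtain ⟨I', rs', hHg', h', hreg', hhf⟩ :=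
    t_bam K n I (List.ofFn f) (List.ofFn fun i : Fin r => a' i) hI hF hreg.toIsWeaklyRegular
  rw [List.forall₂_iff_get] at h'
  obtain ⟨hlen, h'⟩ := h'
  have h'' : List.Forall₂ (fun (d : PR (AlgebraicClosure K) n) (e : ℕ) =>
      1 ≤ e ∧ d.IsHomogeneous e) rs' (List.ofFn fun i : Fin r => a' i) := by
    rw [List.forall₂_iff_get]
    refine ⟨hlen, fun i h1 h2 => ⟨?_, (h' i h1 h2).1⟩⟩
    simp only [List.get_eq_getElem, List.getElem_ofFn]
    exact le_trans one_le_two (ha2 ⟨i, by simpa using h2⟩)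
  have hM := t_rgm (AlgebraicClosure K) n rs' (List.ofFn fun i : Fin r => a' i) h'' hreg'
  rw [hlist] at hM
  have hle : Ideal.ofList rs' ≤ I' := by
    unfold Ideal.ofList
    rw [Ideal.span_le]
    intro g hg
    obtain ⟨i, hi, rfl⟩ := List.getElem_of_mem hg
    exact (h' i hi (by rw [← hlen]; exact hi)).2
  have hRz := egrl_all a' r hmono' (ha2 ⟨0, by omega⟩)
    (fun j hj hjr => by
      rw [hsum j hjr]
      exact hfast ⟨j, hjr⟩ hj) h3 (AlgebraicClosure K) n 0 n (Ideal.ofList rs') I'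
    (zero_add n) hr hM hle hHg'
  obtain ⟨A, hA1, hA2, hA3⟩ := hRz
  exact lexG hr a' I ⟨A, hA1, hA2, fun d => by rw [← hhf]; exact hA3 d⟩

end Pool.EG4
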