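import Pool.Agent.H45.EG3.S3

/-!
# EG4: the statement for degrees which grow fast from the fourth one on, definitions and rows
-/

set_option autoImplicit false

namespace Pool.EG4

open MvPolynomial Pool.EGH
open Pool.EG3 (Cp Mo up Sg cp rk wt Cm CLm Rz MC)
open Pool.EGC (lx sl cj Gs)

/-- The caps increase and are at least two. -/
def Ag {m : ℕ} (c : Fin m → ℕ∞) : Prop := Monotone c ∧ ∀ i, 2 ≤ c i

/-- The theorem of Clements and Lindström for `m` places. -/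
def CLg (m : ℕ) : Prop :=
  ∀ (c : Fin m → ℕ∞), Ag c → ∀ (d : ℕ) (A B : Finset (Fin m → ℕ)), A ⊆ Mo c d →
    Sg c d B → B.card = A.card → (up c d B).card ≤ (up c d A).card

/-- The list of the degrees, last degree first. -/
def dl (a : ℕ → ℕ) : ℕ → List ℕ
  | 0 => []
  | r + 1 => a r :: dl a r

/-- The caps `a 0`, ..., `a (r - 1)`, followed by `⊤`. -/
def ca (a : ℕ → ℕ) (r m : ℕ) : Fin m → ℕ∞ := fun i => if (i : ℕ) < r then (a i : ℕ∞) else ⊤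

/-- The socle degree. -/
def so (a : ℕ → ℕ) (r : ℕ) : ℕ := ∑ i ∈ Finset.range r, (a i - 1)

/-- The theorem for the first `r` degrees, algebraically closed fields. -/
def EGr (a : ℕ → ℕ) (r : ℕ) : Prop :=
  ∀ (K : Type) [Field K] [IsAlgClosed K] (N k m : ℕ) (J I : Ideal (PR K N)), k + m = N →
    r ≤ m → MC k (dl a r) J → J ≤ I → Hg I → Rz I (ca a r m)

/-! ### The theorem of Clements and Lindström, all caps -/

/-- CMPG: compression. -/
def CMPGStmt : Prop :=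
  ∀ (m : ℕ), CLg m → ∀ (c : Fin (m + 1) → ℕ∞), Ag c → ∀ (d : ℕ)
    (A : Finset (Fin (m + 1) → ℕ)) (i : Fin (m + 1)), A ⊆ Mo c d →
    ∃ A' ⊆ Mo c d, A'.card = A.card ∧ (up c d A').card ≤ (up c d A).card ∧ Cm c d i A' ∧
      (A' ≠ A → wt c d A < wt c d A')

/-- EX1G: a missing vector ends with a positive entry, a smaller vector in the set does not end
at the cap. -/
def EX1GStmt : Prop :=
  ∀ (m : ℕ) (c : Fin (m + 3) → ℕ∞), Ag c → ∀ (d : ℕ) (A : Finset (Fin (m + 3) → ℕ)),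
    A ⊆ Mo c d → (∀ i, Cm c d i A) → ∀ b ∈ Mo c d, b ∉ A → ∀ a ∈ A, lx a b →
    b (Fin.last (m + 2)) ≠ 0 ∧ ((a (Fin.last (m + 2)) + 1 : ℕ) : ℕ∞) < c (Fin.last (m + 2))

/-- EX2G: the exchange. -/
def EX2GStmt : Prop :=
  ∀ (m : ℕ) (c : Fin (m + 1) → ℕ∞) (d : ℕ) (A : Finset (Fin (m + 1) → ℕ)), A ⊆ Mo c d →
    ∀ b ∈ Mo c d, b ∉ A → (∀ y ∈ Mo c d, lx b y → y ∈ A) →
    ∀ a ∈ A, (∀ y ∈ A, y ≠ a → lx a y) → lx a b → b (Fin.last m) ≠ 0 →
    ((a (Fin.last m) + 1 : ℕ) : ℕ∞) < c (Fin.last m) →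
    (up c d (insert b (A.erase a))).card ≤ (up c d A).card

/-- CLSG: the induction step. -/
def CLSGStmt : Prop := ∀ m : ℕ, CLg (m + 3) → CLg (m + 4)

/-- CLTG: the theorem of Clements and Lindström. -/
def CLTGStmt : Prop := ∀ m : ℕ, CLg (m + 3)

/-- RZCG: from a family of sets to a lexicographic family. -/
def RZCGStmt : Prop :=
  ∀ (K : Type) [Field K] (N m : ℕ) (I : Ideal (PR K N)) (c : Fin m → ℕ∞), 3 ≤ m → Ag c →
    (∃ A : ℕ → Finset (Fin m → ℕ), (∀ d, A d ⊆ Mo c d) ∧ (∀ d, up c d (A d) ⊆ A (d + 1)) ∧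
      ∀ d, hf I d + (A d).card = (Mo c d).card) → Rz I c

/-- STPG: the induction step. -/
def STPGStmt : Prop :=
  ∀ (K : Type) [Field K] (N m : ℕ) (c : Fin m → ℕ∞) (I : Ideal (PR K N)) (l : PR K N), 3 ≤ m →
    Ag c → Hg I → l ∈ fm K N 1 → (∀ j, Rz (cj I l j ⊔ Ideal.span {l}) c) →
    Rz I (Fin.snoc c ⊤ : Fin (m + 1) → ℕ∞)

/-! ### Duality -/

/-- MOCG: the number of capped vectors. -/
def MOCGStmt : Prop :=
  ∀ (a : ℕ → ℕ) (r : ℕ), PowerSeries.mk (fun d => ((Mo (ca a r r) d).card : ℤ)) *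
    (1 - PowerSeries.X) ^ r = ((dl a r).map (fun d => 1 - (PowerSeries.X : PowerSeries ℤ) ^ d)).prod

/-- QHFG: the Hilbert function of a complete intersection. -/
def QHFGStmt : Prop :=
  ∀ (K : Type) [Field K] (N k r : ℕ) (a : ℕ → ℕ) (J : Ideal (PR K N)), k + r = N →
    MC k (dl a r) J → ∀ d, hf J d = (Mo (ca a r r) d).card

/-- GORG: the socle of a complete intersection of full length. -/
def GORGStmt : Prop :=
  ∀ (K : Type) [Field K] [Infinite K] (N k : ℕ) (L : List ℕ) (J : Ideal (PR K N)), MC k L J →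
    k + L.length = N → ∀ s < (L.map (fun d => d - 1)).sum, ∀ z ∈ fm K N s,
    (∀ l ∈ fm K N 1, l * z ∈ J) → z ∈ J

/-- REVG: reversal. -/
def REVGStmt : Prop :=
  ∀ (m : ℕ) (e : Fin m → ℕ) (s : ℕ), (∀ i, 1 ≤ e i) → s = ∑ i, (e i - 1) →
    (∀ d ≤ s, (Mo (fun i => (e i : ℕ∞)) (s - d)).card = (Mo (fun i => (e i : ℕ∞)) d).card) ∧
    (Mo (fun i => (e i : ℕ∞)) 0).card = 1 ∧
    (∀ d, s < d → Mo (fun i => (e i : ℕ∞)) d = ∅) ∧
    ∀ d < s, ∀ A B A' B' : Finset (Fin m → ℕ), Sg (fun i => (e i : ℕ∞)) d A →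
      Sg (fun i => (e i : ℕ∞)) (d + 1) B → Sg (fun i => (e i : ℕ∞)) (s - d) A' →
      Sg (fun i => (e i : ℕ∞)) (s - (d + 1)) B' →
      A.card + A'.card = (Mo (fun i => (e i : ℕ∞)) d).card →
      B.card + B'.card = (Mo (fun i => (e i : ℕ∞)) (d + 1)).card →
      up (fun i => (e i : ℕ∞)) (s - (d + 1)) B' ⊆ A' → up (fun i => (e i : ℕ∞)) d A ⊆ B

/-- LNKG: the link of an ideal. -/
def LNKGStmt : Prop :=
  ∀ (K : Type) [Field K] [Infinite K] (N k : ℕ) (L : List ℕ) (J I : Ideal (PR K N)), MC k L J →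
    k + L.length = N → J ≤ I → Hg I → ∀ s : ℕ, s = (L.map (fun d => d - 1)).sum → hf J s = 1 →
    (∀ d ≤ s, hf J (s - d) = hf J d) →
    ∃ I' : Ideal (PR K N), Hg I' ∧ J ≤ I' ∧ ∀ d ≤ s, hf I' (s - d) + hf I d = hf J d

/-! ### The theorem -/

/-- BASG: the case of full length. -/
def BASGStmt : Prop :=
  ∀ (a : ℕ → ℕ) (r : ℕ), Monotone a → 2 ≤ a 0 → 3 ≤ r → so a r < a r → EGr a r →
    ∀ (K : Type) [Field K] [IsAlgClosed K] (N k : ℕ) (J I : Ideal (PR K N)), k + (r + 1) = N →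
      MC k (dl a (r + 1)) J → J ≤ I → Hg I → Rz I (ca a (r + 1) (r + 1))

/-- INDG: any number of variables. -/
def INDGStmt : Prop :=
  ∀ (a : ℕ → ℕ) (r : ℕ), Monotone a → 2 ≤ a 0 → 3 ≤ r → so a r < a r → EGr a r → EGr a (r + 1)

/-- EGRG: the theorem over algebraically closed fields. -/
def EGRGStmt : Prop :=
  ∀ (a : ℕ → ℕ) (r : ℕ), Monotone a → 2 ≤ a 0 → (∀ j, 3 ≤ j → j < r → so a j < a j) →
    3 ≤ r → EGr a r

end Pool.EG4
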