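import Pool.Agent.H45.EG4.PEN
import Pool.Agent.H45.EG4.S
import Pool.Agent.H45.EG3.NPZ
import Pool.Agent.H29.EGH.HGA
import Pool.Agent.H50.EGH.COL
import Pool.Agent.H61.EGH.FIN

/-!
# EG4: complete intersections of dimension one
-/

set_option autoImplicit false

namespace Pool.EG4

open MvPolynomial Pool.EGH
open Pool.EG3 (mul_mem' fm_succ hf_eq_zero_iff t_ln0)

variable {K : Type} [Field K] {N : ℕ}

/-- What is used of a complete intersection of dimension one. -/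
structure DP (P : Ideal (PR K N)) (t : ℕ) : Prop where
  hg : Hg P
  ex : ∃ l ∈ fm K N 1, Rg P l
  so : ∀ l ∈ fm K N 1, Rg P l → ∀ s ≤ t, ∀ z ∈ fm K N s,
    (∀ m ∈ fm K N 1, m * z ∈ P ⊔ Ideal.span {l}) → z ∈ P ⊔ Ideal.span {l}
  h1 : ∀ l ∈ fm K N 1, Rg P l → hf (P ⊔ Ideal.span {l}) (t + 1) = 1
  h2 : ∀ l ∈ fm K N 1, Rg P l → hf (P ⊔ Ideal.span {l}) (t + 2) = 0
  h3 : ∀ l ∈ fm K N 1, Rg P l → 2 ≤ hf (P ⊔ Ideal.span {l}) t

/-- The ideal `P + l J`. -/
noncomputable def pj (P : Ideal (PR K N)) (l : PR K N) (J : Ideal (PR K N)) : Ideal (PR K N) :=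
  P ⊔ Ideal.span {l} * J

theorem mem_pj {P J : Ideal (PR K N)} {l f : PR K N} :
    f ∈ pj P l J ↔ ∃ p ∈ P, ∃ j ∈ J, f = p + l * j := by
  unfold pj
  rw [Submodule.mem_sup]
  constructor
  · rintro ⟨p, hp, x, hx, rfl⟩
    obtain ⟨j, hj, rfl⟩ := Ideal.mem_span_singleton_mul.1 hx
    exact ⟨p, hp, j, hj, rfl⟩
  · rintro ⟨p, hp, j, hj, rfl⟩
    exact ⟨p, hp, _, Ideal.mem_span_singleton_mul.2 ⟨j, hj, rfl⟩, rfl⟩

theorem hc_self {d : ℕ} {x : PR K N} (hx : x ∈ fm K N d) : homogeneousComponent d x = x := by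
  rw [homogeneousComponent_of_mem hx, if_pos rfl]

theorem hc_lmul {l : PR K N} (hl : l ∈ fm K N 1) (z : PR K N) (d : ℕ) :
    homogeneousComponent (d + 1) (l * z) = l * homogeneousComponent d z := by
  rw [add_comm]
  exact HGA.hc_mul hl z d

/-- The components of an element of `P + l J`. -/
theorem pj_dec {P J : Ideal (PR K N)} (hP : Hg P) (hJ : Hg J) {l f : PR K N}
    (hl : l ∈ fm K N 1) {d : ℕ} (hf : f ∈ fm K N (d + 1)) (h : f ∈ pj P l J) :
    ∃ p ∈ P, ∃ j ∈ J, j ∈ fm K N d ∧ f = p + l * j := by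
  obtain ⟨p, hp, j, hj, h1⟩ := mem_pj.1 h
  refine ⟨homogeneousComponent (d + 1) p, hP p hp _, homogeneousComponent d j, hJ j hj _,
    homogeneousComponent_mem d j, ?_⟩
  rw [← hc_self hf, h1, map_add, hc_lmul hl]

theorem sp_dec {P : Ideal (PR K N)} (hP : Hg P) {l f : PR K N}
    (hl : l ∈ fm K N 1) {d : ℕ} (hf : f ∈ fm K N (d + 1)) (h : f ∈ P ⊔ Ideal.span {l}) :
    ∃ p ∈ P, ∃ g ∈ fm K N d, f = p + l * g := by
  obtain ⟨p, hp, x, hx, h1⟩ := Submodule.mem_sup.1 h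
  obtain ⟨c, rfl⟩ := Ideal.mem_span_singleton'.1 hx
  refine ⟨homogeneousComponent (d + 1) p, hP p hp _, homogeneousComponent d c,
    homogeneousComponent_mem d c, ?_⟩
  rw [← hc_self hf, ← h1, map_add, mul_comm c l, hc_lmul hl]

theorem sp_dec0 {P : Ideal (PR K N)} (hP : Hg P) {l f : PR K N}
    (hl : l ∈ fm K N 1) (hf : f ∈ fm K N 0) (h : f ∈ P ⊔ Ideal.span {l}) : f ∈ P := by
  obtain ⟨p, hp, x, hx, h1⟩ := Submodule.mem_sup.1 h
  obtain ⟨c, rfl⟩ := Ideal.mem_span_singleton'.1 hx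
  rw [← hc_self hf, ← h1, map_add, mul_comm c l, HGA.hc_mul_lt hl c (Nat.zero_lt_one), add_zero]
  exact hP p hp _

theorem hg_pj {P J : Ideal (PR K N)} (hP : Hg P) (hJ : Hg J) {l : PR K N}
    (hl : l ∈ fm K N 1) : Hg (pj P l J) := by
  intro f hf d
  obtain ⟨p, hp, j, hj, rfl⟩ := mem_pj.1 hf
  rw [map_add]
  refine add_mem (Ideal.mem_sup_left (hP p hp d)) ?_
  cases d with
  | zero =>
    rw [HGA.hc_mul_lt hl j (Nat.zero_lt_one)]
    exact zero_mem _
  | succ d =>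
    rw [hc_lmul hl]
    exact mem_pj.2 ⟨0, zero_mem _, _, hJ j hj d, by rw [zero_add]⟩

theorem pj_le {P J : Ideal (PR K N)} {l : PR K N} (h : P ≤ J) : pj P l J ≤ J :=
  sup_le h Ideal.mul_le_right

theorem le_pj {P J : Ideal (PR K N)} {l : PR K N} : P ≤ pj P l J := le_sup_left

theorem mul_pj {P J : Ideal (PR K N)} {l j : PR K N} (h : j ∈ J) : l * j ∈ pj P l J :=
  mem_pj.2 ⟨0, zero_mem _, j, h, by rw [zero_add]⟩

/-- The Hilbert function of `P + l J`. -/
theorem hf_pj {P J : Ideal (PR K N)} (hP : Hg P) (hJ : Hg J) (hPJ : P ≤ J) {l : PR K N}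
    (hl : l ∈ fm K N 1) (hr : Rg P l) (i : ℕ) :
    hf (pj P l J) (i + 1) = hf (P ⊔ Ideal.span {l}) (i + 1) + hf J i := by
  have h1 := ((t_col t_FIN) K N 1 (pj P l J) l (hg_pj hP hJ hl) hl).1 i
  have h2 : pj P l J ⊔ Ideal.span {l} = P ⊔ Ideal.span {l} := by
    unfold pj
    rw [sup_assoc]
    congr 1
    exact sup_eq_right.2 Ideal.mul_le_left
  have h3 : clI (pj P l J) l = J := by
    apply le_antisymm
    · intro g hg
      obtain ⟨p, hp, j, hj, h⟩ := mem_pj.1 (show l * g ∈ pj P l J from hg)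
      have h4 : g - j ∈ P := hr _ (by
        have : l * (g - j) = p := by linear_combination h
        rw [this]
        exact hp)
      have h5 : g = (g - j) + j := by ring
      rw [h5]
      exact add_mem (hPJ h4) hj
    · intro j hj
      exact mul_pj hj
  rw [h2, h3] at h1
  exact h1.symm

/-- The lemma on submodules. -/
theorem sub {P : Ideal (PR K N)} {t : ℕ} (hD : DP P t) {l : PR K N} (hl : l ∈ fm K N 1)
    (hr : Rg P l) : ∀ (d : ℕ), d ≤ t → ∀ J : Ideal (PR K N), Hg J → P ≤ J →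
    (∀ v ∈ J, v ∈ fm K N d → ∀ y ∈ fm K N 1, y * v ∈ pj P l J) →
    ∀ v ∈ J, v ∈ fm K N d → v ∈ P := by
  have hstep : ∀ (d : ℕ), d ≤ t → ∀ J : Ideal (PR K N),
      (∀ v ∈ J, v ∈ fm K N d → ∀ y ∈ fm K N 1, y * v ∈ pj P l J) →
      ∀ v ∈ J, v ∈ fm K N d → v ∈ P ⊔ Ideal.span {l} := by
    intro d hd J h v hv hvd
    refine hD.so l hl hr d hd v hvd fun m hm => ?_
    have h1 := h v hv hvd m hm
    have h2 : pj P l J ≤ P ⊔ Ideal.span {l} := sup_le_sup_left Ideal.mul_le_left _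
    exact h2 h1
  intro d
  induction d with
  | zero =>
    intro hd J hJ hPJ h v hv hvd
    exact sp_dec0 hD.hg hl hvd (hstep 0 hd J h v hv hvd)
  | succ d ih =>
    intro hd J hJ hPJ h v hv hvd
    obtain ⟨p, hp, g, hg, hvg⟩ := sp_dec hD.hg hl hvd (hstep (d + 1) hd J h v hv hvd)
    have hJ' : Hg (clI J l) := HGA.hg_cl hJ hl
    have hPJ' : P ≤ clI J l := fun x hx => hPJ (Ideal.mul_mem_left _ _ hx)
    have key := ih (by omega) (clI J l) hJ' hPJ' ?_ g ?_ hg
    · rw [hvg]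
      exact add_mem hp (Ideal.mul_mem_left _ _ key)
    · intro g hg hgd y hy
      have hlg : l * g ∈ fm K N (d + 1) := by
        rw [add_comm]
        exact mul_mem' hl hgd
      obtain ⟨p1, hp1, j, hj, hjd, h2⟩ := pj_dec hD.hg hJ hl
        (show y * (l * g) ∈ fm K N (d + 1 + 1) by
          rw [add_comm (d + 1) 1]
          exact mul_mem' hy hlg) (h (l * g) hg hlg y hy)
      have h3 : y * g - j ∈ P := hr _ (by
        have : l * (y * g - j) = p1 := by linear_combination h2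
        rw [this]
        exact hp1)
      obtain ⟨p2, hp2, g2, hg2, h4⟩ := sp_dec hD.hg hl hjd (hstep (d + 1) hd J h j hj hjd)
      have h5 : y * g = ((y * g - j) + p2) + l * g2 := by linear_combination h4
      rw [h5]
      refine mem_pj.2 ⟨_, add_mem h3 hp2, g2, ?_, rfl⟩
      change l * g2 ∈ J
      have h6 : l * g2 = j - p2 := by linear_combination -h4
      rw [h6]
      exact sub_mem hj (hPJ hp2)
    · change l * g ∈ J
      have h6 : l * g = v - p := by linear_combination -hvg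
      rw [h6]
      exact sub_mem hv (hPJ hp)

/-- The growth. -/
theorem bnd {P : Ideal (PR K N)} {t : ℕ} (hD : DP P t) {J : Ideal (PR K N)} (hJ : Hg J)
    (hPJ : P ≤ J) {u : PR K N} (hu : u ∈ J) (hut : u ∈ fm K N t) (huP : u ∉ P) :
    hf J (t + 1) ≤ hf J t := by
  obtain ⟨l, hl, hr⟩ := hD.ex
  have h1 := hf_pj hD.hg hJ hPJ hl hr t
  rw [hD.h1 l hl hr] at h1
  obtain ⟨h2, h3⟩ := t_MON K N (pj P l J) J (t + 1) (pj_le hPJ)
  by_contra hcon
  have h4 : hf J (t + 1) = hf (pj P l J) (t + 1) := by omega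
  apply huP
  refine sub hD hl hr t le_rfl J hJ hPJ (fun v hv hvt y hy => ?_) u hu hut
  refine h3 h4 _ (Ideal.mul_mem_left _ _ hv) ?_
  rw [add_comm]
  exact mul_mem' hy hvt

/-- A subspace of codimension one. -/
theorem cod {S J : Ideal (PR K N)} (hSJ : S ≤ J) {d : ℕ} (h : hf S d = hf J d + 1)
    {w : PR K N} (hw : w ∈ J) (hwd : w ∈ fm K N d) (hwS : w ∉ S) :
    ∀ v ∈ J, v ∈ fm K N d → ∃ c : K, v - C c * w ∈ S := by
  intro v hv hvd
  have hF : Module.Finite K ↥(fm K N d) := t_FIN K N d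
  set A : Submodule K (PR K N) := S.restrictScalars K ⊓ fm K N d with hA
  set B : Submodule K (PR K N) := J.restrictScalars K ⊓ fm K N d with hB
  have hAf : Module.Finite K ↥A := Submodule.finiteDimensional_of_le inf_le_right
  have hBf : Module.Finite K ↥B := Submodule.finiteDimensional_of_le inf_le_right
  have hA1 : Module.finrank K ↥A ≤ Module.finrank K ↥(fm K N d) :=
    Submodule.finrank_mono inf_le_right
  have hB1 : Module.finrank K ↥B ≤ Module.finrank K ↥(fm K N d) :=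
    Submodule.finrank_mono inf_le_right
  have hAB : A ≤ B := fun x hx => ⟨hSJ hx.1, hx.2⟩
  have hwB : w ∈ B := ⟨hw, hwd⟩
  have hwA : w ∉ A := fun h => hwS h.1
  have h1 : Module.finrank K ↥B = Module.finrank K ↥A + 1 := by
    unfold EGH.hf at h
    rw [← hA, ← hB] at h
    omega
  have hle : A ⊔ Submodule.span K {w} ≤ B :=
    sup_le hAB ((Submodule.span_singleton_le_iff_mem _ _).2 hwB)
  have h2 : Module.finrank K ↥A < Module.finrank K ↥(A ⊔ Submodule.span K {w}) := by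
    have hf2 : Module.Finite K ↥(A ⊔ Submodule.span K {w}) :=
      Submodule.finiteDimensional_of_le hle
    apply Submodule.finrank_lt_finrank_of_lt
    refine lt_of_le_of_ne le_sup_left fun h => hwA ?_
    rw [h]
    exact Submodule.mem_sup_right (Submodule.mem_span_singleton_self w)
  have h3 : A ⊔ Submodule.span K {w} = B :=
    Submodule.eq_of_le_of_finrank_le hle (by omega)
  have h4 : v ∈ A ⊔ Submodule.span K {w} := by
    rw [h3]
    exact ⟨hv, hvd⟩
  obtain ⟨a, ha, b, hb, rfl⟩ := Submodule.mem_sup.1 h4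
  obtain ⟨c, rfl⟩ := Submodule.mem_span_singleton.1 hb
  refine ⟨c, ?_⟩
  rw [smul_eq_C_mul, add_sub_cancel_right]
  exact ha.1

/-- The lemma on rank one. -/
theorem rk {P : Ideal (PR K N)} {t : ℕ} (hD : DP P t) {J : Ideal (PR K N)} (hJ : Hg J)
    (hPJ : P ≤ J) (heq : hf J t = hf J (t + 1)) {u : PR K N} (hu : u ∈ J) (hut : u ∈ fm K N t)
    (huP : u ∉ P) {l : PR K N} (hl : l ∈ fm K N 1) (hr : Rg P l) :
    ∀ w ∈ J, w ∈ fm K N (t + 1) → ∃ z ∈ fm K N 1, ∀ y ∈ fm K N 1, ∃ c : K,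
      y * w - C c * (z * w) ∈ pj P l J := by
  intro w hw hwt
  by_cases hwS : w ∈ pj P l J
  · refine ⟨0, zero_mem _, fun y _ => ⟨0, ?_⟩⟩
    rw [C_0, zero_mul, sub_zero]
    exact Ideal.mul_mem_left _ _ hwS
  have h1 := hf_pj hD.hg hJ hPJ hl hr t
  rw [hD.h1 l hl hr] at h1
  have hc := cod (pj_le hPJ) (d := t + 1) (by omega) hw hwt hwS
  by_cases hex : ∃ v ∈ J, v ∈ fm K N t ∧ ∃ z ∈ fm K N 1, ∃ c : K, c ≠ 0 ∧
      z * v - C c * w ∈ pj P l J
  · obtain ⟨v, hv, hvt, z, hz, c, hc0, h2⟩ := hex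
    refine ⟨z, hz, fun y hy => ?_⟩
    obtain ⟨b, hb⟩ := hc (y * v) (Ideal.mul_mem_left _ _ hv) (by
      rw [add_comm]
      exact mul_mem' hy hvt)
    refine ⟨c⁻¹ * b, ?_⟩
    have h3 : y * w - C (c⁻¹ * b) * (z * w) =
        C c⁻¹ * (z * (y * v - C b * w) - y * (z * v - C c * w)) := by
      have h4 : (C c⁻¹ * C c : PR K N) = 1 := by
        rw [← C_mul, inv_mul_cancel₀ hc0, C_1]
      rw [C_mul]
      linear_combination (-(y * w)) * h4
    rw [h3]
    exact Ideal.mul_mem_left _ _ (sub_mem (Ideal.mul_mem_left _ _ hb)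
      (Ideal.mul_mem_left _ _ h2))
  · exfalso
    push Not at hex
    apply huP
    refine sub hD hl hr t le_rfl J hJ hPJ (fun v hv hvt y hy => ?_) u hu hut
    obtain ⟨b, hb⟩ := hc (y * v) (Ideal.mul_mem_left _ _ hv) (by
      rw [add_comm]
      exact mul_mem' hy hvt)
    by_cases hb0 : b = 0
    · rw [hb0, C_0, zero_mul, sub_zero] at hb
      exact hb
    · exact absurd hb (hex v hv hvt y hy b hb0)

theorem fm_mul_le (M : ℕ) : fm K N (M + 1) = fm K N 1 * fm K N M := by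
  unfold fm
  rw [← homogeneousSubmodule_one_pow, pow_succ', homogeneousSubmodule_one_pow]

/-- Powers. -/
theorem pw {P : Ideal (PR K N)} {J : Ideal (PR K N)} {l : PR K N} {d : ℕ}
    (h : ∀ v ∈ J, v ∈ fm K N d → ∀ y ∈ fm K N 1, ∃ v' ∈ J, v' ∈ fm K N d ∧ y * v - l * v' ∈ P) :
    ∀ (M : ℕ), ∀ g ∈ fm K N M, ∀ v ∈ J, v ∈ fm K N d →
      ∃ v' ∈ J, v' ∈ fm K N d ∧ g * v - l ^ M * v' ∈ P := by
  intro M
  induction M with
  | zero =>
    intro g hg v hv hvd
    refine ⟨g * v, Ideal.mul_mem_left _ _ hv, ?_, ?_⟩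
    · have := mul_mem' hg hvd
      rwa [zero_add] at this
    · rw [pow_zero, one_mul, sub_self]
      exact zero_mem _
  | succ M ih =>
    intro g hg
    rw [fm_mul_le] at hg
    induction hg using Submodule.mul_induction_on' with
    | mem_mul_mem y hy g hg =>
      intro v hv hvd
      obtain ⟨v1, h1, h2, h3⟩ := ih g hg v hv hvd
      obtain ⟨v2, h4, h5, h6⟩ := h v1 h1 h2 y hy
      refine ⟨v2, h4, h5, ?_⟩
      have : y * g * v - l ^ (M + 1) * v2 =
          y * (g * v - l ^ M * v1) + l ^ M * (y * v1 - l * v2) := by ring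
      rw [this]
      exact add_mem (Ideal.mul_mem_left _ _ h3) (Ideal.mul_mem_left _ _ h6)
    | add x _ y _ hx hy =>
      intro v hv hvd
      obtain ⟨v1, h1, h2, h3⟩ := hx v hv hvd
      obtain ⟨v2, h4, h5, h6⟩ := hy v hv hvd
      refine ⟨v1 + v2, add_mem h1 h4, add_mem h2 h5, ?_⟩
      have : (x + y) * v - l ^ (M + 1) * (v1 + v2) =
          (x * v - l ^ (M + 1) * v1) + (y * v - l ^ (M + 1) * v2) := by ring
      rw [this]
      exact add_mem h3 h6

theorem rg_pow {P : Ideal (PR K N)} {l : PR K N} (hr : Rg P l) (M : ℕ) {z : PR K N}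
    (h : l ^ M * z ∈ P) : z ∈ P := by
  induction M with
  | zero => rwa [pow_zero, one_mul] at h
  | succ M ih =>
    apply ih
    apply hr
    rwa [pow_succ', mul_assoc] at h

/-- The kernel vector is not killed by all linear forms. -/
theorem vmx {P : Ideal (PR K N)} {t : ℕ} (hD : DP P t) {J : Ideal (PR K N)} (hJ : Hg J)
    (hPJ : P ≤ J) (heq : hf J t = hf J (t + 1)) (hne : hf J (t + 1) ≠ 0) {q : PR K N}
    (hq : q ∈ fm K N (t + 1)) (hqJ : q ∈ J) {M : ℕ} (hM : ∀ f ∈ fm K N M, f ∈ P ⊔ Ideal.span {q})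
    {l : PR K N} (hl : l ∈ fm K N 1) (hr : Rg P l) {w : PR K N} (hw : w ∈ J)
    (hwt : w ∈ fm K N (t + 1)) (hwS : w ∉ pj P l J) : ∃ y ∈ fm K N 1, y * w ∉ pj P l J := by
  by_contra hcon
  push Not at hcon
  have h1 := hf_pj hD.hg hJ hPJ hl hr t
  rw [hD.h1 l hl hr] at h1
  have hc := cod (pj_le hPJ) (d := t + 1) (by omega) hw hwt hwS
  have h2 : ∀ v ∈ J, v ∈ fm K N (t + 1) → ∀ y ∈ fm K N 1,
      ∃ v' ∈ J, v' ∈ fm K N (t + 1) ∧ y * v - l * v' ∈ P := by
    intro v hv hvt y hy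
    obtain ⟨c, hcv⟩ := hc v hv hvt
    have h3 : y * v ∈ pj P l J := by
      have : y * v = y * (v - C c * w) + C c * (y * w) := by ring
      rw [this]
      exact add_mem (Ideal.mul_mem_left _ _ hcv) (Ideal.mul_mem_left _ _ (hcon y hy))
    obtain ⟨p, hp, j, hj, hjd, h4⟩ := pj_dec hD.hg hJ hl (d := t + 1) (by
      rw [add_comm (t + 1) 1]
      exact mul_mem' hy hvt) h3
    refine ⟨j, hj, hjd, ?_⟩
    have : y * v - l * j = p := by linear_combination h4
    rw [this]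
    exact hp
  have h3 := pw h2 M
  apply hne
  rw [hf_eq_zero_iff t_FIN]
  intro m hm
  have hlM : l ^ M ∈ fm K N M := by
    have := ((mem_homogeneousSubmodule _ _).1 hl).pow M
    rwa [one_mul] at this
  have h4 : l ^ M * m ∈ P ⊔ Ideal.span {q} := Ideal.mul_mem_right _ _ (hM _ hlM)
  obtain ⟨p, hp, x, hx, h5⟩ := Submodule.mem_sup.1 h4
  obtain ⟨c, rfl⟩ := Ideal.mem_span_singleton'.1 hx
  have h6 : l ^ M * m = homogeneousComponent (t + 1 + M) p + homogeneousComponent M c * q := by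
    have h7 : l ^ M * m ∈ fm K N (t + 1 + M) := by
      rw [add_comm]
      exact mul_mem' hlM hm
    rw [← hc_self h7, ← h5, map_add, mul_comm c q, HGA.hc_mul hq, mul_comm q]
  obtain ⟨v, hv, hvt, h8⟩ := h3 _ (homogeneousComponent_mem M c) q hqJ hq
  have h9 : l ^ M * (m - v) ∈ P := by
    have : l ^ M * (m - v) = homogeneousComponent (t + 1 + M) p +
        (homogeneousComponent M c * q - l ^ M * v) := by linear_combination h6
    rw [this]
    exact add_mem (hD.hg p hp _) h8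
  have h10 := rg_pow hr M h9
  have : m = (m - v) + v := by ring
  rw [this]
  exact add_mem (hPJ h10) hv

end Pool.EG4
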