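import Mathlib

/-!
# EG4: a pencil of linear maps whose kernels have rank at most one
-/

set_option autoImplicit false

namespace Pool.EG4

open Polynomial

/-- A family of vectors of rank at most one. -/
def Ro {K ι E : Type} [Field K] [AddCommGroup E] [Module K E] (φ : ι → E) : Prop :=
  ∀ (α β : E →ₗ[K] K) (y z : ι), α (φ y) * β (φ z) = α (φ z) * β (φ y)

/-- The value of a functional at a polynomial vector. -/
noncomputable def pl {K D : Type} [Field K] [AddCommGroup D] [Module K D] {n : ℕ}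
    (b : Fin n → D) (g : D →ₗ[K] K) : (Fin n → K[X]) →ₗ[K[X]] K[X] :=
  ∑ j, (Polynomial.C (g (b j))) • LinearMap.proj j

theorem pl_apply {K D : Type} [Field K] [AddCommGroup D] [Module K D] {n : ℕ}
    (b : Fin n → D) (g : D →ₗ[K] K) (ψ : Fin n → K[X]) :
    pl b g ψ = ∑ j, Polynomial.C (g (b j)) * ψ j := by
  simp [pl, LinearMap.sum_apply]

theorem pl_eval {K D : Type} [Field K] [AddCommGroup D] [Module K D] {n : ℕ}
    (b : Fin n → D) (g : D →ₗ[K] K) (ψ : Fin n → K[X]) (s : K) :
    (pl b g ψ).eval s = g (∑ j, (ψ j).eval s • b j) := by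
  rw [pl_apply, Polynomial.eval_finsetSum, map_sum]
  refine Finset.sum_congr rfl fun j _ => ?_
  rw [Polynomial.eval_mul, Polynomial.eval_C, map_smul, smul_eq_mul, mul_comm]

theorem pl_coeff {K D : Type} [Field K] [AddCommGroup D] [Module K D] {n : ℕ}
    (b : Fin n → D) (g : D →ₗ[K] K) (ψ : Fin n → K[X]) (i : ℕ) :
    (pl b g ψ).coeff i = g (∑ j, (ψ j).coeff i • b j) := by
  rw [pl_apply, Polynomial.finsetSum_coeff, map_sum]
  refine Finset.sum_congr rfl fun j _ => ?_
  rw [Polynomial.coeff_C_mul, map_smul, smul_eq_mul, mul_comm]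

/-- The lemma on pencils. -/
theorem pen {K D E ι : Type} [Field K] [IsAlgClosed K] [AddCommGroup D] [Module K D]
    [AddCommGroup E] [Module K E] [Module.Finite K D] [Module.Finite K E]
    (M0 M1 : D →ₗ[K] E) (Y : ι → D →ₗ[K] E) (ρ : D →ₗ[K] K)
    (hdim : Module.finrank K E < Module.finrank K D)
    (h01 : ∀ ψ, M0 ψ = 0 → M1 ψ = 0 → ψ = 0)
    (h1 : ∀ ψ, M1 ψ = 0 → ρ ψ = 0 → ψ = 0)
    (hgen : {s : K | ¬ ∀ ψ, M0 ψ + s • M1 ψ = 0 → Ro (K := K) (fun y => Y y ψ)}.Finite) :
    ∃ u, u ≠ 0 ∧ ρ u = 0 ∧ Ro (K := K) (fun y => Y y u) := by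
  classical
  have hinf : Infinite K := IsAlgClosed.instInfinite
  have b := Module.finBasis K D
  have e := Module.finBasis K E
  set n := Module.finrank K D with hn
  set m := Module.finrank K E with hm
  let f : (Fin n → K[X]) →ₗ[K[X]] (Fin m → K[X]) :=
    LinearMap.pi fun i => pl b (e.coord i ∘ₗ M0) + (Polynomial.X : K[X]) • pl b (e.coord i ∘ₗ M1)
  have hf : ∀ ψ i, f ψ i = pl b (e.coord i ∘ₗ M0) ψ + Polynomial.X * pl b (e.coord i ∘ₗ M1) ψ :=
    fun ψ i => rfl
  have hex : ∃ k : ℕ, ∃ ψ : Fin n → K[X], ψ ≠ 0 ∧ f ψ = 0 ∧ ∀ j, (ψ j).natDegree ≤ k := by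
    have h2 : ¬ Function.Injective f := fun h => absurd (le_of_fin_injective K[X] f h) (by omega)
    rw [injective_iff_map_eq_zero] at h2
    push Not at h2
    obtain ⟨ψ, h3, h4⟩ := h2
    exact ⟨Finset.univ.sup fun j => (ψ j).natDegree, ψ, h4, h3, fun j =>
      Finset.le_sup (f := fun j => (ψ j).natDegree) (Finset.mem_univ j)⟩
  obtain ⟨ψ, hψ0, hψf, hψk⟩ := Nat.find_spec hex
  have hmin := fun k => Nat.find_min (H := hex) (m := k)
  set k := Nat.find hex with hk
  -- values and coefficients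
  have hval : ∀ s : K, M0 (∑ j, (ψ j).eval s • b j) + s • M1 (∑ j, (ψ j).eval s • b j) = 0 := by
    intro s
    apply e.repr.injective
    ext i
    have h3 := congrArg (Polynomial.eval s) ((hf ψ i).symm.trans (congrFun hψf i))
    rw [Polynomial.eval_add, Polynomial.eval_mul, pl_eval, pl_eval, Polynomial.eval_X,
      Pi.zero_apply, Polynomial.eval_zero] at h3
    rw [map_add, map_smul, map_zero]
    exact h3
  have hco : ∀ i : ℕ, M0 (∑ j, (ψ j).coeff (i + 1) • b j) + M1 (∑ j, (ψ j).coeff i • b j) = 0 := by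
    intro i
    apply e.repr.injective
    ext i'
    have h3 := congrArg (fun p => Polynomial.coeff p (i + 1))
      ((hf ψ i').symm.trans (congrFun hψf i'))
    simp only [Polynomial.coeff_add, Polynomial.coeff_X_mul, pl_coeff, Pi.zero_apply,
      Polynomial.coeff_zero] at h3
    rw [map_add, map_zero]
    exact h3
  have hco0 : M0 (∑ j, (ψ j).coeff 0 • b j) = 0 := by
    apply e.repr.injective
    ext i'
    have h3 := congrArg (fun p => Polynomial.coeff p 0)
      ((hf ψ i').symm.trans (congrFun hψf i'))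
    simp only [Polynomial.coeff_add, Polynomial.mul_coeff_zero, Polynomial.coeff_X_zero, zero_mul,
      add_zero, pl_coeff, Pi.zero_apply, Polynomial.coeff_zero] at h3
    rw [map_zero]
    exact h3
  -- a combination of the basis
  have hcomb : ∀ c : Fin n → K, ∑ j, c j • b j = 0 → ∀ j, c j = 0 := by
    intro c hc j
    exact (Fintype.linearIndependent_iff.1 b.linearIndependent) c hc j
  -- the top coefficient
  have htop : (∑ j, (ψ j).coeff k • b j) ≠ 0 := by
    intro h3
    have h4 := hcomb _ h3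
    rcases Nat.eq_zero_or_pos k with hk0 | hk0
    · apply hψ0
      funext j
      have h5 := hψk j
      have := h4 j
      rw [hk0] at this h5
      have h6 := Polynomial.eq_C_of_natDegree_le_zero h5
      rw [this, Polynomial.C_0] at h6
      exact h6
    · refine hmin (k - 1) (by omega) ⟨ψ, hψ0, hψf, fun j => ?_⟩
      by_contra hlt
      have h5 := hψk j
      have h6 : (ψ j).natDegree = k := by omega
      have h7 : ψ j = 0 := by
        rw [← Polynomial.leadingCoeff_eq_zero, Polynomial.leadingCoeff, h6]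
        exact h4 j
      rw [h7, Polynomial.natDegree_zero] at h6
      omega
  have htop1 : M1 (∑ j, (ψ j).coeff k • b j) = 0 := by
    have h3 := hco k
    have h4 : (∑ j, (ψ j).coeff (k + 1) • b j) = 0 := by
      apply Finset.sum_eq_zero
      intro j _
      rw [Polynomial.coeff_eq_zero_of_natDegree_lt (Nat.lt_succ_of_le (hψk j)), zero_smul]
    rwa [h4, map_zero, zero_add] at h3
  have hkpos : k ≠ 0 := by
    intro hk0
    rw [hk0] at htop htop1
    exact htop (h01 _ hco0 htop1)
  have hρ : (pl b ρ ψ).coeff k ≠ 0 := by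
    rw [pl_coeff]
    exact fun h => htop (h1 _ htop1 h)
  have hdeg : (pl b ρ ψ).degree ≠ 0 := by
    intro h
    have h3 := Polynomial.eq_C_of_degree_eq_zero h
    rw [h3, Polynomial.coeff_C, if_neg hkpos] at hρ
    exact hρ rfl
  obtain ⟨s0, hs0⟩ := IsAlgClosed.exists_root _ hdeg
  refine ⟨∑ j, (ψ j).eval s0 • b j, ?_, ?_, ?_⟩
  · intro h3
    have h4 := hcomb _ h3
    have h5 : ∀ j, ∃ χ : K[X], ψ j = (Polynomial.X - Polynomial.C s0) * χ := fun j =>
      Polynomial.dvd_iff_isRoot.2 (h4 j)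
    choose χ hχ using h5
    have hne : (Polynomial.X - Polynomial.C s0 : K[X]) ≠ 0 := Polynomial.X_sub_C_ne_zero s0
    have hψχ : ψ = (Polynomial.X - Polynomial.C s0 : K[X]) • χ := by
      funext j
      rw [hχ j]
      rfl
    refine hmin (k - 1) (by omega) ⟨χ, ?_, ?_, fun j => ?_⟩
    · rintro rfl
      exact hψ0 (by rw [hψχ, smul_zero])
    · rw [hψχ, map_smul] at hψf
      exact (smul_eq_zero.1 hψf).resolve_left hne
    · by_cases h0 : χ j = 0
      · rw [h0, Polynomial.natDegree_zero]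
        exact Nat.zero_le _
      · have h6 := hψk j
        rw [hχ j, Polynomial.natDegree_mul hne h0, Polynomial.natDegree_X_sub_C] at h6
        omega
  · rw [← pl_eval]
    exact hs0
  · intro α β y z
    have hp : pl b (α ∘ₗ Y y) ψ * pl b (β ∘ₗ Y z) ψ -
        pl b (α ∘ₗ Y z) ψ * pl b (β ∘ₗ Y y) ψ = 0 := by
      apply Polynomial.eq_zero_of_infinite_isRoot
      refine Set.Infinite.mono ?_ (Set.Finite.infinite_compl hgen)
      intro s hs
      rw [Set.mem_compl_iff, Set.mem_ofPred_eq, not_not] at hs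
      rw [Set.mem_ofPred_eq, Polynomial.IsRoot, Polynomial.eval_sub, Polynomial.eval_mul,
        Polynomial.eval_mul, pl_eval, pl_eval, pl_eval, pl_eval, sub_eq_zero]
      exact hs _ (hval s) α β y z
    have h3 := congrArg (Polynomial.eval s0) hp
    rw [Polynomial.eval_sub, Polynomial.eval_mul, Polynomial.eval_mul, pl_eval, pl_eval, pl_eval,
      pl_eval, Polynomial.eval_zero, sub_eq_zero] at h3
    exact h3

/-- Linear maps which are injective for almost all values of the parameter. -/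
theorem cof {K D E : Type} [Field K] [AddCommGroup D] [Module K D] [AddCommGroup E] [Module K E]
    [Module.Finite K D] [Module.Finite K E] (M0 M1 : D →ₗ[K] E)
    (hdim : Module.finrank K E = Module.finrank K D) (h0 : ∀ ψ, M0 ψ = 0 → ψ = 0) :
    {s : K | ¬ ∀ ψ, M0 ψ + s • M1 ψ = 0 → ψ = 0}.Finite := by
  classical
  have hinj : Function.Injective M0 := (injective_iff_map_eq_zero M0).2 h0
  let e0 := LinearEquiv.ofInjectiveOfFinrankEq M0 hinj hdim.symm
  have he0 : ∀ ψ, e0 ψ = M0 ψ := fun ψ => rfl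
  let T : D →ₗ[K] D := e0.symm.toLinearMap ∘ₗ M1
  have hfin : {c : K | Module.End.HasEigenvalue T c}.Finite := Module.End.finite_hasEigenvalue T
  refine Set.Finite.subset ((hfin.image fun c => -c⁻¹).union (Set.finite_singleton 0)) ?_
  intro s hs
  rw [Set.mem_ofPred_eq] at hs
  push Not at hs
  obtain ⟨ψ, h2, h3⟩ := hs
  by_cases hs0 : s = 0
  · right
    exact hs0
  left
  refine ⟨-s⁻¹, ?_, by
    change -(-s⁻¹)⁻¹ = s
    rw [inv_neg, inv_inv, neg_neg]⟩
  refine Module.End.hasEigenvalue_of_hasEigenvector (x := ψ) ?_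
  rw [Module.End.hasEigenvector_iff]
  refine ⟨Module.End.mem_eigenspace_iff.2 ?_, h3⟩
  apply e0.injective
  have h4 : e0 (T ψ) = M1 ψ := e0.apply_symm_apply _
  rw [h4, map_smul, he0]
  have h5 : M0 ψ = -(s • M1 ψ) := eq_neg_of_add_eq_zero_left h2
  rw [h5, smul_neg, neg_smul, neg_neg, smul_smul, inv_mul_cancel₀ hs0, one_smul]

end Pool.EG4
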