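import Pool.Agent.H45.EG4.ONE
import Pool.Agent.H93.EGH.RLF
import Pool.Agent.H85.EGH.GPD

/-!
# EG4: the middle degree
-/

set_option autoImplicit false

namespace Pool.EG4

open MvPolynomial Pool.EGH
open Pool.EG3 (mul_mem' fm_succ hf_eq_zero_iff t_ln0)

variable {K : Type} [Field K] {N : ℕ}

/-- Comparison in one degree. -/
theorem mond {A B : Ideal (PR K N)} {d : ℕ} (h : ∀ f ∈ A, f ∈ fm K N d → f ∈ B) :
    hf B d ≤ hf A d ∧ (hf B d = hf A d → ∀ f ∈ B, f ∈ fm K N d → f ∈ A) := by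
  have hF : Module.Finite K ↥(fm K N d) := t_FIN K N d
  have hle : A.restrictScalars K ⊓ fm K N d ≤ B.restrictScalars K ⊓ fm K N d :=
    fun x hx => ⟨h x hx.1 hx.2, hx.2⟩
  have hfJ : Module.Finite K ↥(B.restrictScalars K ⊓ fm K N d) :=
    Submodule.finiteDimensional_of_le inf_le_right
  have h1 := Submodule.finrank_mono hle
  have h2 : Module.finrank K ↥(B.restrictScalars K ⊓ fm K N d) ≤
      Module.finrank K ↥(fm K N d) := Submodule.finrank_mono inf_le_right
  refine ⟨?_, fun h f hf hfi => ?_⟩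
  · unfold hf
    omega
  · have h3 : Module.finrank K ↥(A.restrictScalars K ⊓ fm K N d) =
        Module.finrank K ↥(B.restrictScalars K ⊓ fm K N d) := by
      unfold EGH.hf at h
      omega
    have h4 := Submodule.eq_of_le_of_finrank_eq hle h3
    have h5 : f ∈ B.restrictScalars K ⊓ fm K N d := ⟨hf, hfi⟩
    rw [← h4] at h5
    exact h5.1

/-- Multiplication by a linear form. -/
noncomputable def mp (Q : Ideal (PR K N)) (d : ℕ) (y : ↥(fm K N 1)) :
    ↥(gp Q d) →ₗ[K] ↥(gp Q (d + 1)) :=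
  LinearMap.restrict (LinearMap.mulLeft K (Ideal.Quotient.mk Q (y : PR K N))) (by
    rintro x ⟨x', hx', rfl⟩
    refine ⟨(y : PR K N) * x', ?_, ?_⟩
    · rw [add_comm]
      exact mul_mem' y.2 hx'
    · exact map_mul (Ideal.Quotient.mk Q) _ _)

/-- The class of a form. -/
noncomputable def cg (Q : Ideal (PR K N)) (d : ℕ) (x : ↥(fm K N d)) : ↥(gp Q d) :=
  ⟨Ideal.Quotient.mk Q (x : PR K N), ⟨x, x.2, rfl⟩⟩

theorem cg_surj {Q : Ideal (PR K N)} {d : ℕ} (ψ : ↥(gp Q d)) : ∃ x, cg Q d x = ψ := by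
  obtain ⟨_, ⟨x, hx, rfl⟩⟩ := ψ
  exact ⟨⟨x, hx⟩, rfl⟩

theorem cg_eq {Q : Ideal (PR K N)} {d : ℕ} {x : ↥(fm K N d)} :
    cg Q d x = 0 ↔ (x : PR K N) ∈ Q := by
  rw [← Ideal.Quotient.eq_zero_iff_mem]
  exact ⟨fun h => congrArg Subtype.val h, fun h => Subtype.ext h⟩

theorem mp_mul {d : ℕ} (y : ↥(fm K N 1)) (x : ↥(fm K N d)) :
    (y : PR K N) * (x : PR K N) ∈ fm K N (d + 1) := by
  rw [add_comm]
  exact mul_mem' y.2 x.2

theorem mp_cg {Q : Ideal (PR K N)} {d : ℕ} (y : ↥(fm K N 1)) (x : ↥(fm K N d)) :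
    mp Q d y (cg Q d x) = cg Q (d + 1) ⟨_, mp_mul y x⟩ := by
  apply Subtype.ext
  exact (map_mul (Ideal.Quotient.mk Q) _ _).symm

theorem cg_add {Q : Ideal (PR K N)} {d : ℕ} (x y : ↥(fm K N d)) :
    cg Q d (x + y) = cg Q d x + cg Q d y :=
  Subtype.ext (map_add (Ideal.Quotient.mk Q) _ _)

theorem cg_smul {Q : Ideal (PR K N)} {d : ℕ} (c : K) (x : ↥(fm K N d)) :
    cg Q d (c • x) = c • cg Q d x :=
  Subtype.ext (map_smul (Ideal.Quotient.mkₐ K Q) _ _)

theorem gp_fin (Q : Ideal (PR K N)) (d : ℕ) : Module.Finite K ↥(gp Q d) := by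
  have : Module.Finite K ↥(fm K N d) := t_FIN K N d
  unfold gp
  infer_instance

theorem Cmul_mem {d : ℕ} {x : PR K N} (hx : x ∈ fm K N d) (c : K) : C c * x ∈ fm K N d := by
  rw [← smul_eq_C_mul]
  exact Submodule.smul_mem _ c hx

/-- The pieces above the regularity. -/
theorem up1 {P : Ideal (PR K N)} {t : ℕ} (hD : DP P t) {l : PR K N} (hl : l ∈ fm K N 1)
    (hr : Rg P l) (j : ℕ) : ∀ f ∈ fm K N (t + 1 + j), ∃ z ∈ fm K N (t + 1),
      f - l ^ j * z ∈ P := by
  have hg : Hg (P ⊔ Ideal.span {l}) := HGA.hg_sup hD.hg (HGA.hg_span hl)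
  have h0 : ∀ j, hf (P ⊔ Ideal.span {l}) (t + 2 + j) = 0 := by
    intro j
    induction j with
    | zero => exact hD.h2 l hl hr
    | succ j ih => exact t_ln0 t_FIN K N _ _ hg ih
  induction j with
  | zero =>
    intro f hf
    refine ⟨f, hf, ?_⟩
    rw [pow_zero, one_mul, sub_self]
    exact zero_mem _
  | succ j ih =>
    intro f hf
    have h1 := (hf_eq_zero_iff t_FIN _ _).1 (h0 j) f (by
      have : t + 2 + j = t + 1 + (j + 1) := by omega
      rw [this]
      exact hf)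
    obtain ⟨p, hp, g, hg, h2⟩ := sp_dec hD.hg hl (d := t + 1 + j) hf h1
    obtain ⟨z, hz, h3⟩ := ih g hg
    refine ⟨z, hz, ?_⟩
    have : f - l ^ (j + 1) * z = p + l * (g - l ^ j * z) := by
      rw [h2]
      ring
    rw [this]
    exact add_mem hp (Ideal.mul_mem_left _ _ h3)

theorem lin_comb {l0 l1 : PR K N} (h0 : l0 ∈ fm K N 1) (h1 : l1 ∈ fm K N 1) (s : K) :
    l0 + C s * l1 ∈ fm K N 1 := add_mem h0 (Cmul_mem h1 s)

/-- Almost all members of a pencil are regular. -/
theorem nzc {P : Ideal (PR K N)} {t : ℕ} (hD : DP P t) {l0 l1 : PR K N} (hl0 : l0 ∈ fm K N 1)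
    (hl1 : l1 ∈ fm K N 1) (hr : Rg P l0) : {s : K | ¬ Rg P (l0 + C s * l1)}.Finite := by
  have := gp_fin P (t + 1)
  have := gp_fin P (t + 2)
  have hdim : Module.finrank K ↥(gp P (t + 1 + 1)) = Module.finrank K ↥(gp P (t + 1)) := by
    rw [GPDh.dim, GPDh.dim]
    have h1 := hf_pj hD.hg hD.hg le_rfl hl0 hr (t + 1)
    rw [hD.h2 l0 hl0 hr, le_antisymm (pj_le le_rfl) le_pj, zero_add] at h1
    exact h1
  refine Set.Finite.subset (cof (mp P (t + 1) ⟨l0, hl0⟩) (mp P (t + 1) ⟨l1, hl1⟩) hdim ?_) ?_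
  · intro ψ h
    obtain ⟨x, rfl⟩ := cg_surj ψ
    rw [mp_cg, cg_eq] at h
    rw [cg_eq]
    exact hr _ h
  · intro s hs hgood
    apply hs
    set l := l0 + C s * l1 with hl
    have hlm : l ∈ fm K N 1 := lin_comb hl0 hl1 s
    have key1 : ∀ z ∈ fm K N (t + 1), l * z ∈ P → z ∈ P := by
      intro z hz h
      have h1 := hgood (cg P (t + 1) ⟨z, hz⟩) (by
        rw [mp_cg, mp_cg, ← cg_smul, ← cg_add, cg_eq]
        change l0 * z + s • (l1 * z) ∈ P
        rw [smul_eq_C_mul]
        have : l0 * z + C s * (l1 * z) = l * z := by rw [hl]; ring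
        rw [this]
        exact h)
      exact cg_eq.1 h1
    have key2 : ∀ i, ∀ z ∈ fm K N i, l * z ∈ P → z ∈ P := by
      intro i z hz h
      rcases Nat.lt_or_ge (t + 1) i with hlt | hge
      · obtain ⟨j, rfl⟩ : ∃ j, i = t + 1 + j := ⟨i - (t + 1), by omega⟩
        obtain ⟨z', hz', h1⟩ := up1 hD hl0 hr j z hz
        have h2 : l0 ^ j * (l * z') ∈ P := by
          have : l0 ^ j * (l * z') = l * z - l * (z - l0 ^ j * z') := by ring
          rw [this]
          exact sub_mem h (Ideal.mul_mem_left _ _ h1)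
        have h3 := key1 z' hz' (rg_pow hr j h2)
        have : z = (z - l0 ^ j * z') + l0 ^ j * z' := by ring
        rw [this]
        exact add_mem h1 (Ideal.mul_mem_left _ _ h3)
      · obtain ⟨j, hj⟩ : ∃ j, t + 1 = j + i := ⟨t + 1 - i, by omega⟩
        have hlj : l0 ^ j ∈ fm K N j := by
          have := ((mem_homogeneousSubmodule _ _).1 hl0).pow j
          rwa [one_mul] at this
        apply rg_pow hr j
        apply key1
        · rw [hj]
          exact mul_mem' hlj hz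
        · rw [mul_left_comm]
          exact Ideal.mul_mem_left _ _ h
    intro z h
    rw [← sum_homogeneousComponent z]
    refine sum_mem fun i _ => key2 i _ (homogeneousComponent_mem i z) ?_
    rw [← hc_lmul hlm]
    exact hD.hg _ h _

/-- The case of dimension one. -/
theorem pt1 [Infinite K] {P : Ideal (PR K N)} {t : ℕ} (hD : DP P t) {q : PR K N}
    (hq : q ∈ fm K N (t + 1)) (hqr : Rg P q) {J : Ideal (PR K N)} (hPJ : P ≤ J)
    (hqJ : q ∈ J) (h1 : hf J t = 1) (h2 : hf J (t + 1) = 1) : False := by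
  have htop : ∀ d, hf (⊤ : Ideal (PR K N)) d = 0 := fun d =>
    (hf_eq_zero_iff t_FIN _ _).2 fun _ _ => Submodule.mem_top
  obtain ⟨u, hu, huJ⟩ : ∃ u ∈ fm K N t, u ∉ J := by
    by_contra hcon
    push Not at hcon
    have := (hf_eq_zero_iff t_FIN J t).2 hcon
    omega
  have hcu := cod (S := J) (J := ⊤) le_top (d := t) (by rw [htop, h1]) Submodule.mem_top hu huJ
  have hall : ¬ ∀ f ∈ fm K N (t + 1), f ∈ J := by
    intro h
    have := (hf_eq_zero_iff t_FIN J (t + 1)).2 h
    omega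
  obtain ⟨z0, hz0, hz0u⟩ : ∃ z ∈ fm K N 1, z * u ∉ J := by
    by_contra hcon
    push Not at hcon
    apply hall
    intro f hf
    obtain ⟨G, hG, rfl⟩ := fm_succ hf
    refine sum_mem fun i _ => ?_
    obtain ⟨c, hc⟩ := hcu (G i) Submodule.mem_top (hG i)
    have : X i * G i = X i * (G i - C c * u) + C c * (X i * u) := by ring
    rw [this]
    exact add_mem (Ideal.mul_mem_left _ _ hc)
      (Ideal.mul_mem_left _ _ (hcon _ (RLFaux.X_mem i)))
  have hz0t : z0 * u ∈ fm K N (t + 1) := by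
    rw [add_comm]
    exact mul_mem' hz0 hu
  have hcz := cod (S := J) (J := ⊤) le_top (d := t + 1) (by rw [htop, h2]) Submodule.mem_top
    hz0t hz0u
  let H : Submodule K (PR K N) :=
    fm K N 1 ⊓ (J.restrictScalars K).comap (LinearMap.mulRight K u)
  have hH : ∀ y, y ∈ H ↔ y ∈ fm K N 1 ∧ y * u ∈ J := fun y => Iff.rfl
  have hHz : fm K N 1 ≤ H ⊔ Submodule.span K {z0} := by
    intro y hy
    obtain ⟨c, hc⟩ := hcz (y * u) Submodule.mem_top (by
      rw [add_comm]
      exact mul_mem' hy hu)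
    have h3 : y = (y - C c * z0) + c • z0 := by
      rw [smul_eq_C_mul]
      ring
    rw [h3]
    refine Submodule.add_mem_sup ?_ (Submodule.smul_mem _ _ (Submodule.mem_span_singleton_self _))
    rw [hH]
    refine ⟨sub_mem hy (Cmul_mem hz0 c), ?_⟩
    have : (y - C c * z0) * u = y * u - C c * (z0 * u) := by ring
    rw [this]
    exact hc
  have hHle : H ≤ fm K N 1 := inf_le_left
  have hone : (1 : PR K N) ∈ fm K N 0 := isHomogeneous_one _ _
  have hdec : ∀ d, fm K N (d + 1) ≤ H * fm K N d ⊔ Submodule.span K {z0 ^ (d + 1)} := by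
    intro d
    induction d with
    | zero =>
      refine hHz.trans (sup_le_sup ?_ ?_)
      · intro x hx
        have := Submodule.mul_mem_mul hx hone
        rwa [mul_one] at this
      · rw [zero_add, pow_one]
    | succ d ih =>
      rw [fm_mul_le (d + 1)]
      refine (mul_le_mul' le_rfl ih).trans ?_
      rw [Submodule.mul_sup]
      refine sup_le ?_ ?_
      · refine le_trans ?_ le_sup_left
        rw [fm_mul_le d, ← mul_assoc, ← mul_assoc, mul_comm (fm K N 1) H]
      · refine (mul_le_mul' hHz le_rfl).trans ?_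
        rw [Submodule.sup_mul]
        refine sup_le_sup (mul_le_mul' le_rfl ?_) ?_
        · rw [Submodule.span_singleton_le_iff_mem]
          have := ((mem_homogeneousSubmodule _ _).1 hz0).pow (d + 1)
          rwa [one_mul] at this
        · rw [Submodule.span_mul_span, Set.singleton_mul_singleton, ← pow_succ']
  have hHJ : ∀ x ∈ H * fm K N t, x ∈ J := by
    intro x hx
    induction hx using Submodule.mul_induction_on' with
    | mem_mul_mem y hy g hg =>
      obtain ⟨c, hc⟩ := hcu g Submodule.mem_top hg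
      have : y * g = y * (g - C c * u) + C c * (y * u) := by ring
      rw [this]
      exact add_mem (Ideal.mul_mem_left _ _ hc) (Ideal.mul_mem_left _ _ ((hH y).1 hy).2)
    | add x _ y _ hx hy => exact add_mem hx hy
  have hqH : q ∈ H * fm K N t := by
    obtain ⟨a, ha, b, hb, hab⟩ := Submodule.mem_sup.1 (hdec t hq)
    obtain ⟨c, rfl⟩ := Submodule.mem_span_singleton.1 hb
    by_cases hc : c = 0
    · rw [hc, zero_smul, add_zero] at hab
      rwa [← hab]
    · exfalso
      have h3 : z0 ^ (t + 1) ∈ J := by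
        have h4 : c • z0 ^ (t + 1) ∈ J := by
          have : c • z0 ^ (t + 1) = q - a := by rw [← hab]; ring
          rw [this]
          exact sub_mem hqJ (hHJ a ha)
        have h5 : z0 ^ (t + 1) = C c⁻¹ * (c • z0 ^ (t + 1)) := by
          rw [smul_eq_C_mul, ← mul_assoc, ← C_mul, inv_mul_cancel₀ hc, C_1, one_mul]
        rw [h5]
        exact Ideal.mul_mem_left _ _ h4
      apply hall
      intro f hf
      obtain ⟨a', ha', b', hb', rfl⟩ := Submodule.mem_sup.1 (hdec t hf)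
      obtain ⟨c', rfl⟩ := Submodule.mem_span_singleton.1 hb'
      refine add_mem (hHJ a' ha') ?_
      rw [smul_eq_C_mul]
      exact Ideal.mul_mem_left _ _ h3
  have hqz : ∀ z : PR K N, (∀ w ∈ H, w * z ∈ P) → z ∈ P := by
    intro z hz
    apply hqr
    have h3 : ∀ x ∈ H * fm K N t, x * z ∈ P := by
      intro x hx
      induction hx using Submodule.mul_induction_on' with
      | mem_mul_mem y hy g hg =>
        have : y * g * z = g * (y * z) := by ring
        rw [this]
        exact Ideal.mul_mem_left _ _ (hz y hy)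
      | add x _ y _ hx hy =>
        rw [add_mul]
        exact add_mem hx hy
    exact h3 q hqH
  obtain ⟨l, hlH, -, hlr⟩ := RLFaux.avoid P H ⊥ (by
      intro hbot
      obtain ⟨l, hl, hr⟩ := hD.ex
      have h3 : (1 : PR K N) ∈ P := hqz 1 fun w hw => by
        rw [(Submodule.mem_bot K).1 (hbot hw), zero_mul]
        exact zero_mem _
      have h4 := hD.h1 l hl hr
      rw [(hf_eq_zero_iff t_FIN _ _).2 fun f _ => by
        have h5 : (1 : PR K N) ∈ P ⊔ Ideal.span {l} := Ideal.mem_sup_left h3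
        rw [(Ideal.eq_top_iff_one _).2 h5]
        exact Submodule.mem_top] at h4
      omega) (by
      intro 𝔭 _ z hz h𝔭
      by_contra hcon
      push Not at hcon
      exact hz (hqz z fun w hw => (h𝔭 w).1 (hcon w hw)))
  obtain ⟨hl1, hlu⟩ := (hH l).1 hlH
  have h3 : ∀ f ∈ P ⊔ Ideal.span {l}, f ∈ fm K N (t + 1) → f ∈ J := by
    intro f hf hft
    obtain ⟨p, hp, g, hg, rfl⟩ := sp_dec hD.hg hl1 hft hf
    refine add_mem (hPJ hp) ?_
    obtain ⟨c, hc⟩ := hcu g Submodule.mem_top hg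
    have : l * g = l * (g - C c * u) + C c * (l * u) := by ring
    rw [this]
    exact add_mem (Ideal.mul_mem_left _ _ hc) (Ideal.mul_mem_left _ _ hlu)
  have h4 := (mond h3).2 (by rw [h2, hD.h1 l hl1 hlr])
  have h5 : ∀ f ∈ J, f ∈ fm K N t → f ∈ P ⊔ Ideal.span {l} := by
    intro f hf hft
    refine hD.so l hl1 hlr t le_rfl f hft fun m hm => ?_
    refine h4 _ (Ideal.mul_mem_left _ _ hf) ?_
    rw [add_comm]
    exact mul_mem' hm hft
  have h6 := (mond h5).1
  have h7 := hD.h3 l hl1 hlr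
  omega

theorem ro_of {ι E : Type} [AddCommGroup E] [Module K E] {φ : ι → E} (z : ι)
    (h : ∀ y, ∃ c : K, φ y = c • φ z) : Ro (K := K) φ := by
  intro α β y y'
  obtain ⟨c, hc⟩ := h y
  obtain ⟨c', hc'⟩ := h y'
  rw [hc, hc', map_smul, map_smul, map_smul, map_smul, smul_eq_mul, smul_eq_mul, smul_eq_mul,
    smul_eq_mul]
  ring

theorem ro_to {ι E : Type} [Nonempty ι] [AddCommGroup E] [Module K E] {φ : ι → E}
    (h : Ro (K := K) φ) : ∃ z, ∀ y, ∃ c : K, φ y = c • φ z := by
  by_cases h0 : ∀ y, φ y = 0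
  · obtain ⟨z⟩ := ‹Nonempty ι›
    exact ⟨z, fun y => ⟨0, by rw [h0 y, zero_smul]⟩⟩
  · push Not at h0
    obtain ⟨z, hz⟩ := h0
    have h1 : ∃ β : Module.Dual K E, β (φ z) ≠ 0 := by
      by_contra hcon
      push Not at hcon
      exact hz ((Module.forall_dual_apply_eq_zero_iff K _).1 hcon)
    obtain ⟨β, hβ⟩ := h1
    refine ⟨z, fun y => ⟨(β (φ z))⁻¹ * β (φ y), ?_⟩⟩
    rw [← sub_eq_zero, ← Module.forall_dual_apply_eq_zero_iff K]
    intro α
    have h2 := h α β y z
    rw [map_sub, map_smul, smul_eq_mul, sub_eq_zero]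
    field_simp
    rw [h2]
    ring

/-- The Hilbert function is at most one. -/
theorem hf_le_one {B : Ideal (PR K N)} {d : ℕ} {z : PR K N} (hz : z ∈ fm K N d)
    (h : ∀ y ∈ fm K N d, ∃ c : K, y - C c * z ∈ B) : hf B d ≤ 1 := by
  rw [← GPDh.dim]
  refine finrank_le_one (cg B d ⟨z, hz⟩) fun w => ?_
  obtain ⟨x, rfl⟩ := cg_surj w
  obtain ⟨c, hc⟩ := h x x.2
  refine ⟨c, ?_⟩
  rw [← cg_smul, ← sub_eq_zero]
  apply Subtype.ext
  change Ideal.Quotient.mk B (c • z) - Ideal.Quotient.mk B (x : PR K N) = 0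
  rw [← map_sub, Ideal.Quotient.eq_zero_iff_mem, smul_eq_C_mul]
  have : C c * z - (x : PR K N) = -((x : PR K N) - C c * z) := by ring
  rw [this]
  exact neg_mem hc

end Pool.EG4
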